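import Pool.Agent.Lib.DC3.MainIneq
import Pool.Agent.Lib.DigitChanges.AllBases

/-!
# Digit changes of `√2` in all bases: the size of the support is `(log N)^3 / (log log N)^5`
-/

set_option autoImplicit false

open Finset PowerSeries Filter

namespace Pool.Agent.DC3

open Pool.Agent.DigitChanges

private lemma asy_pow_le_exp (a x y : ℝ) (n k : ℕ) (ha : 0 ≤ a) (hx : 0 < x) (hy : y = Real.log x)
    (h : a ≤ x ^ k) : a ^ n ≤ Real.exp (k * n * y) := by
  calc a ^ n ≤ (x ^ k) ^ n := pow_le_pow_left₀ ha h n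
    _ = Real.exp (k * n * y) := by
        rw [← pow_mul, ← Real.rpow_natCast, Real.rpow_def_of_pos hx, hy]
        congr 1
        push_cast
        ring

private lemma asy_add_one (u v : ℝ) (hu : 0 ≤ u) (h : u + 1 ≤ v) :
    Real.exp u + 1 ≤ Real.exp v := by
  have h1 : Real.exp u * Real.exp 1 ≤ Real.exp v := by
    rw [← Real.exp_add]
    exact Real.exp_le_exp.2 h
  have h2 : (2 : ℝ) ≤ Real.exp 1 := by
    have := Real.add_one_le_exp (1 : ℝ)
    linarith
  have h3 : 1 ≤ Real.exp u := Real.one_le_exp hu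
  nlinarith

set_option maxHeartbeats 1000000 in
/-- the numerical conditions of the main inequality -/
private lemma asy_conditions (b l N m P0 r s g₀ t : ℕ) (x y : ℝ) (hx200 : 200 ≤ x)
    (hy : y = Real.log x) (hy1 : 1 ≤ y) (hyx : 200 * y ≤ x) (hyx2 : 608 * y ^ 2 ≤ x)
    (hNx : Real.exp x = N) (h1 : (36 * (b : ℝ) ^ (2 * l + 2) + 24) * x ^ 12 ≤ Real.exp (x / 32))
    (hb : 2 ≤ b)
    (hm : m = ⌊x ^ 3⌋₊) (hP0 : P0 = ⌊x / (64 * y)⌋₊) (hr : r = ⌊Real.exp (x / 8)⌋₊)
    (hs : s = ⌊x / (100 * y)⌋₊) (hg : g₀ = ⌊Real.exp (x / 2)⌋₊) (ht : t = ⌊5 * y⌋₊ + 1) :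
    Wb b l P0 m + 1 ≤ r ∧ 6 * s ≤ 4 * (m + 3) ^ 4 ∧
      wb b l m r * (4 * (m + 3) ^ 4) ^ (2 * s) ≤ g₀ ∧
      g₀ * (5 * (m + 2) ^ 2) ^ (s + 1) ≤ N ∧ m < 2 ^ t ∧
      8 * t * ((m + 1) * r + 1) * P0 ^ (3 * t + 1) < g₀ := by
  have hx0 : 0 < x := by linarith
  have hx1 : 1 ≤ x := by linarith
  have hy0 : 0 < y := by linarith
  set B : ℝ := (b : ℝ) ^ (2 * l + 2) with hB
  have hB1 : (1 : ℝ) ≤ B := one_le_pow₀ (by exact_mod_cast (by omega : 1 ≤ b))
  have hmup : (m : ℝ) ≤ x ^ 3 := by rw [hm]; exact Nat.floor_le (by positivity)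
  have hmlow : x ^ 3 - 1 < m := by rw [hm]; exact Nat.sub_one_lt_floor _
  have hrup : (r : ℝ) ≤ Real.exp (x / 8) := by rw [hr]; exact Nat.floor_le (Real.exp_pos _).le
  have hrlow : Real.exp (x / 8) - 1 < r := by rw [hr]; exact Nat.sub_one_lt_floor _
  have hgup : (g₀ : ℝ) ≤ Real.exp (x / 2) := by rw [hg]; exact Nat.floor_le (Real.exp_pos _).le
  have hglow : Real.exp (x / 2) - 1 < g₀ := by rw [hg]; exact Nat.sub_one_lt_floor _
  have hP0up : (P0 : ℝ) ≤ x / (64 * y) := by rw [hP0]; exact Nat.floor_le (by positivity)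
  have hsup : (s : ℝ) ≤ x / (100 * y) := by rw [hs]; exact Nat.floor_le (by positivity)
  have htup : (t : ℝ) ≤ 5 * y + 1 := by
    rw [ht]
    push_cast
    have := Nat.floor_le (by positivity : (0 : ℝ) ≤ 5 * y)
    linarith
  have htlow : 5 * y ≤ t := by
    rw [ht]
    push_cast
    have := Nat.sub_one_lt_floor (5 * y)
    linarith
  have hP0y : (P0 : ℝ) * (64 * y) ≤ x := by
    rwa [le_div_iff₀ (by positivity)] at hP0up
  have hsy : (s : ℝ) * (100 * y) ≤ x := by
    rwa [le_div_iff₀ (by positivity)] at hsup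
  have hP0x : (P0 : ℝ) ≤ x := by
    have : (0 : ℝ) ≤ P0 := by positivity
    nlinarith
  have hsx : (s : ℝ) ≤ x := by
    have : (0 : ℝ) ≤ s := by positivity
    nlinarith
  have hx3 : (200 : ℝ) ≤ x ^ 3 := by
    have : x ≤ x ^ 3 := le_self_pow₀ hx1 (by norm_num)
    linarith
  have hpow : ∀ i j : ℕ, i ≤ j → x ^ i ≤ x ^ j := fun i j h => pow_le_pow_right₀ hx1 h
  have hmm0 : (0 : ℝ) ≤ m := by positivity
  have hr1 : (1 : ℝ) ≤ r := by
    have h2 : Real.exp 1 ≤ Real.exp (x / 8) := Real.exp_le_exp.2 (by linarith)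
    have h3 := Real.add_one_le_exp (1 : ℝ)
    have h4 : (0 : ℝ) < r := by linarith
    exact_mod_cast Nat.pos_of_ne_zero (fun h => by rw [h] at h4; simp at h4)
  have hxx : x = Real.exp y := by rw [hy, Real.exp_log hx0]
  refine ⟨?_, ?_, ?_, ?_, ?_, ?_⟩
  · -- Wb
    have h2 : (m : ℝ) ^ P0 ≤ Real.exp (3 * x / 64) := by
      refine (asy_pow_le_exp m x y P0 3 hmm0 hx0 hy hmup).trans (Real.exp_le_exp.2 ?_)
      push_cast
      nlinarith
    have h3 : (P0 : ℝ) * (36 * B * (m : ℝ) ^ 2) ≤ 36 * B * x ^ 12 := by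
      have h4 : (m : ℝ) ^ 2 ≤ (x ^ 3) ^ 2 := pow_le_pow_left₀ hmm0 hmup 2
      calc (P0 : ℝ) * (36 * B * (m : ℝ) ^ 2) ≤ x * (36 * B * (x ^ 3) ^ 2) := by
            apply mul_le_mul hP0x _ (by positivity) hx0.le
            exact mul_le_mul_of_nonneg_left h4 (by positivity)
        _ = 36 * B * x ^ 7 := by ring
        _ ≤ 36 * B * x ^ 12 := mul_le_mul_of_nonneg_left (hpow 7 12 (by norm_num)) (by positivity)
    have h5 : (P0 : ℝ) * (36 * B * (m : ℝ) ^ 2) * (m : ℝ) ^ P0 ≤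
        36 * B * x ^ 12 * Real.exp (3 * x / 64) :=
      mul_le_mul h3 h2 (by positivity) (by positivity)
    have h6 : 1 ≤ Real.exp (3 * x / 64) := Real.one_le_exp (by positivity)
    have h7 : Real.exp (x / 32) * Real.exp (3 * x / 64) ≤ Real.exp (x / 8) := by
      rw [← Real.exp_add]
      exact Real.exp_le_exp.2 (by linarith)
    have h8 : (1 : ℝ) ≤ x ^ 12 := one_le_pow₀ hx1
    have h9 : 36 * B * x ^ 12 * Real.exp (3 * x / 64) + 2 ≤ Real.exp (x / 8) := by
      refine le_trans ?_ h7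
      have h10 : (36 * B * x ^ 12 + 24 * x ^ 12) * Real.exp (3 * x / 64) ≤
          Real.exp (x / 32) * Real.exp (3 * x / 64) := by
        apply mul_le_mul_of_nonneg_right _ (by positivity)
        calc _ = (36 * B + 24) * x ^ 12 := by ring
          _ ≤ _ := h1
      nlinarith
    have h11 : ((Wb b l P0 m + 1 : ℕ) : ℝ) ≤ r := by
      unfold Wb
      push_cast
      linarith
    exact_mod_cast h11
  · -- `6 s ≤ K`
    have h2 : (6 : ℝ) * s ≤ x := by
      have h3 : (s : ℝ) * 100 ≤ s * (100 * y) := by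
        apply mul_le_mul_of_nonneg_left _ (by positivity)
        linarith
      linarith
    have h3 : x ≤ (m : ℝ) + 3 := by
      have : x ≤ x ^ 3 := le_self_pow₀ hx1 (by norm_num)
      linarith
    have h4 : (m : ℝ) + 3 ≤ ((m : ℝ) + 3) ^ 4 := le_self_pow₀ (by linarith) (by norm_num)
    have h5 : ((6 * s : ℕ) : ℝ) ≤ ((4 * (m + 3) ^ 4 : ℕ) : ℝ) := by
      push_cast
      nlinarith
    exact_mod_cast h5
  · -- `w K^(2 s) ≤ g₀`
    have hwb : ((wb b l m r : ℕ) : ℝ) ≤ (36 * B + 24) * x ^ 12 * Real.exp (x / 8) := by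
      unfold wb
      push_cast
      have h2 : (m : ℝ) ^ 2 ≤ (x ^ 3) ^ 2 := pow_le_pow_left₀ hmm0 hmup 2
      have h3 : (m : ℝ) ^ 3 ≤ (x ^ 3) ^ 3 := pow_le_pow_left₀ hmm0 hmup 3
      have h4 : (m : ℝ) + 1 ≤ 2 * x ^ 3 := by linarith
      have h5 : 36 * B * (m : ℝ) ^ 2 ≤ 36 * B * x ^ 12 * r := by
        calc 36 * B * (m : ℝ) ^ 2 ≤ 36 * B * (x ^ 3) ^ 2 :=
              mul_le_mul_of_nonneg_left h2 (by positivity)
          _ = 36 * B * x ^ 6 := by ring
          _ ≤ 36 * B * x ^ 12 := mul_le_mul_of_nonneg_left (hpow 6 12 (by norm_num)) (by positivity)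
          _ ≤ 36 * B * x ^ 12 * r := le_mul_of_one_le_right (by positivity) hr1
      have h6 : 2 * (m : ℝ) ^ 3 * r ≤ 2 * x ^ 12 * r := by
        apply mul_le_mul_of_nonneg_right _ (by positivity)
        have : (x ^ 3) ^ 3 = x ^ 9 := by ring
        have h7 := hpow 9 12 (by norm_num)
        linarith
      have h7 : 2 * (m : ℝ) ^ 3 * (2 * (((m : ℝ) + 1) * r)) ≤ 8 * x ^ 12 * r := by
        calc 2 * (m : ℝ) ^ 3 * (2 * (((m : ℝ) + 1) * r)) ≤
            2 * (x ^ 3) ^ 3 * (2 * ((2 * x ^ 3) * r)) := by gcongr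
          _ = 8 * x ^ 12 * r := by ring
      calc 36 * B * (m : ℝ) ^ 2 + 2 * (m : ℝ) ^ 3 * r +
            2 * (m : ℝ) ^ 3 * (2 * (((m : ℝ) + 1) * r)) ≤
          36 * B * x ^ 12 * r + 2 * x ^ 12 * r + 8 * x ^ 12 * r := by linarith
        _ = (36 * B + 10) * x ^ 12 * r := by ring
        _ ≤ (36 * B + 24) * x ^ 12 * Real.exp (x / 8) := by
            apply mul_le_mul _ hrup (by positivity) (by positivity)
            apply mul_le_mul_of_nonneg_right _ (by positivity)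
            linarith
    have hwb2 : ((wb b l m r : ℕ) : ℝ) ≤ Real.exp (5 * x / 32) := by
      refine hwb.trans ?_
      calc (36 * B + 24) * x ^ 12 * Real.exp (x / 8) ≤ Real.exp (x / 32) * Real.exp (x / 8) :=
            mul_le_mul_of_nonneg_right h1 (Real.exp_pos _).le
        _ = Real.exp (5 * x / 32) := by rw [← Real.exp_add]; congr 1; ring
    have hK : 4 * ((m : ℝ) + 3) ^ 4 ≤ x ^ 13 := by
      have h2 : (m : ℝ) + 3 ≤ 2 * x ^ 3 := by linarith
      calc 4 * ((m : ℝ) + 3) ^ 4 ≤ 4 * (2 * x ^ 3) ^ 4 := by gcongr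
        _ = 64 * x ^ 12 := by ring
        _ ≤ x * x ^ 12 := mul_le_mul_of_nonneg_right (by linarith) (by positivity)
        _ = x ^ 13 := by ring
    have hK2 : (4 * ((m : ℝ) + 3) ^ 4) ^ (2 * s) ≤ Real.exp (26 * x / 100) := by
      refine (asy_pow_le_exp _ x y (2 * s) 13 (by positivity) hx0 hy hK).trans
        (Real.exp_le_exp.2 ?_)
      push_cast
      nlinarith
    have h3 : ((wb b l m r * (4 * (m + 3) ^ 4) ^ (2 * s) : ℕ) : ℝ) ≤ g₀ := by
      have h4 : ((wb b l m r : ℕ) : ℝ) * (4 * ((m : ℝ) + 3) ^ 4) ^ (2 * s) ≤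
          Real.exp (5 * x / 32) * Real.exp (26 * x / 100) :=
        mul_le_mul hwb2 hK2 (by positivity) (Real.exp_pos _).le
      rw [← Real.exp_add] at h4
      have h5 := asy_add_one (5 * x / 32 + 26 * x / 100) (x / 2) (by positivity) (by linarith)
      push_cast
      linarith
    exact_mod_cast h3
  · -- `g₀ (5 (m+2)^2)^(s+1) ≤ N`
    have hK : 5 * ((m : ℝ) + 2) ^ 2 ≤ x ^ 7 := by
      have h2 : (m : ℝ) + 2 ≤ 2 * x ^ 3 := by linarith
      calc 5 * ((m : ℝ) + 2) ^ 2 ≤ 5 * (2 * x ^ 3) ^ 2 := by gcongr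
        _ = 20 * x ^ 6 := by ring
        _ ≤ x * x ^ 6 := mul_le_mul_of_nonneg_right (by linarith) (by positivity)
        _ = x ^ 7 := by ring
    have hK2 : (5 * ((m : ℝ) + 2) ^ 2) ^ (s + 1) ≤ Real.exp (x / 2) := by
      refine (asy_pow_le_exp _ x y (s + 1) 7 (by positivity) hx0 hy hK).trans
        (Real.exp_le_exp.2 ?_)
      push_cast
      nlinarith
    have h3 : ((g₀ * (5 * (m + 2) ^ 2) ^ (s + 1) : ℕ) : ℝ) ≤ N := by
      push_cast
      calc (g₀ : ℝ) * (5 * ((m : ℝ) + 2) ^ 2) ^ (s + 1) ≤ Real.exp (x / 2) * Real.exp (x / 2) :=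
            mul_le_mul hgup hK2 (by positivity) (Real.exp_pos _).le
        _ = N := by rw [← Real.exp_add, ← hNx]; congr 1; ring
    exact_mod_cast h3
  · -- `m < 2^t`
    have h2 : (m : ℝ) < (2 : ℝ) ^ t := by
      calc (m : ℝ) ≤ x ^ 3 := hmup
        _ = Real.exp (3 * y) := by
            rw [hxx, ← Real.exp_nat_mul]
            norm_num
        _ < Real.exp (Real.log 2 * t) := by
            apply Real.exp_lt_exp.2
            have h3 := Real.log_two_gt_d9
            have h4 : 0.69 * (5 * y) ≤ Real.log 2 * t :=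
              mul_le_mul (by linarith) htlow (by positivity) (by linarith)
            linarith
        _ = (2 : ℝ) ^ t := by
            rw [mul_comm, Real.exp_nat_mul, Real.exp_log (by norm_num)]
    exact_mod_cast h2
  · -- the last condition
    have htx : (t : ℝ) ≤ x := by linarith
    have h2 : ((m : ℝ) + 1) * r + 1 ≤ 3 * x ^ 3 * Real.exp (x / 8) := by
      have h3 : (m : ℝ) + 1 ≤ 2 * x ^ 3 := by linarith
      have h4 : ((m : ℝ) + 1) * r ≤ 2 * x ^ 3 * Real.exp (x / 8) :=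
        mul_le_mul h3 hrup (by positivity) (by positivity)
      have h5 : 1 ≤ Real.exp (x / 8) := Real.one_le_exp (by positivity)
      nlinarith
    have h3 : (P0 : ℝ) ^ (3 * t + 1) ≤ Real.exp (x / 32) := by
      refine (asy_pow_le_exp P0 x y (3 * t + 1) 1 (by positivity) hx0 hy
        (by rw [pow_one]; exact hP0x)).trans (Real.exp_le_exp.2 ?_)
      push_cast
      have h4 : 3 * (t : ℝ) + 1 ≤ 19 * y := by linarith
      nlinarith
    have h4 : ((8 * t * ((m + 1) * r + 1) * P0 ^ (3 * t + 1) : ℕ) : ℝ) < g₀ := by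
      push_cast
      calc 8 * (t : ℝ) * (((m : ℝ) + 1) * r + 1) * (P0 : ℝ) ^ (3 * t + 1) ≤
          8 * x * (3 * x ^ 3 * Real.exp (x / 8)) * Real.exp (x / 32) := by gcongr
        _ = 24 * x ^ 4 * Real.exp (x / 8) * Real.exp (x / 32) := by ring
        _ ≤ Real.exp (x / 32) * Real.exp (x / 8) * Real.exp (x / 32) := by
            apply mul_le_mul_of_nonneg_right _ (Real.exp_pos _).le
            apply mul_le_mul_of_nonneg_right _ (Real.exp_pos _).le
            refine le_trans ?_ h1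
            have h5 := hpow 4 12 (by norm_num)
            have h6 : (0 : ℝ) < x ^ 12 := by positivity
            nlinarith
        _ = Real.exp (3 * x / 16) := by
            rw [← Real.exp_add, ← Real.exp_add]; congr 1; ring
        _ ≤ Real.exp (x / 2) - 1 := by
            have h5 := asy_add_one (3 * x / 16) (x / 2) (by positivity) (by linarith)
            linarith
        _ < g₀ := hglow
    exact_mod_cast h4

theorem support_bound3 (b l : ℕ) (hb : 2 ≤ b) (hl : 1 ≤ l) :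
    ∃ c : ℝ, 0 < c ∧ ∀ᶠ N : ℕ in atTop,
      c * Real.log N ^ 3 / Real.log (Real.log N) ^ 5 ≤ sc (Fs b l) (N + 1) := by
  obtain ⟨c₀, hc₀, A, x₀, hA, hcount⟩ := inert_count
  set c₁ : ℝ := c₀ / 128 with hc₁
  have hc₁0 : 0 < c₁ := by positivity
  set c₂ : ℝ := min (c₁ / 1920000) 1 with hc₂
  have hc₂0 : 0 < c₂ := lt_min (by positivity) one_pos
  refine ⟨c₂, hc₂0, ?_⟩
  have htend : Tendsto (fun N : ℕ => Real.log (N : ℝ)) atTop atTop :=
    Real.tendsto_log_atTop.comp tendsto_natCast_atTop_atTop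
  have e1 := htend.eventually (ev_exp (36 * (b : ℝ) ^ (2 * l + 2) + 24) 12)
  have e2 := htend.eventually (eventually_ge_atTop (200 : ℝ))
  have hloglog : Tendsto (fun N : ℕ => Real.log (Real.log (N : ℝ))) atTop atTop :=
    Real.tendsto_log_atTop.comp htend
  have e3 := hloglog.eventually (eventually_ge_atTop (1 : ℝ))
  have e4 := htend.eventually (ev_log (128 * (x₀ + A * (b : ℝ) ^ l + A + 2)) 1)
  have e5 := htend.eventually (ev_log 608 2)
  have e6 := htend.eventually (ev_log 200 1)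
  filter_upwards [e1, e2, e3, e4, e5, e6, eventually_ge_atTop 2] with N h1 h2 h3 h4 h5 h6 hN2
  set x : ℝ := Real.log N with hx
  set y : ℝ := Real.log x with hy
  have hNR : (0 : ℝ) < N := by exact_mod_cast (by omega : 0 < N)
  have hx1 : 1 ≤ x := by linarith
  have hx0 : 0 < x := by linarith
  have hy0 : 0 < y := by linarith
  rw [pow_one] at h4 h6
  set M := sc (Fs b l) (N + 1) with hM
  by_cases hMx : x ^ 3 < M
  · -- many changes
    have h7 : c₂ * x ^ 3 / y ^ 5 ≤ x ^ 3 := by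
      rw [div_le_iff₀ (by positivity)]
      have h8 : c₂ ≤ 1 := min_le_right _ _
      have h9 : 1 ≤ y ^ 5 := one_le_pow₀ h3
      have h10 : 0 ≤ x ^ 3 := by positivity
      nlinarith
    linarith
  push Not at hMx
  obtain ⟨q1, q2, q3, q4, q5, q6⟩ := asy_conditions b l N ⌊x ^ 3⌋₊ ⌊x / (64 * y)⌋₊
    ⌊Real.exp (x / 8)⌋₊ ⌊x / (100 * y)⌋₊ ⌊Real.exp (x / 2)⌋₊ (⌊5 * y⌋₊ + 1) x y h2 hy h3 h6 h5
    (by rw [hx, Real.exp_log hNR]) h1 hb rfl rfl rfl rfl rfl rfl
  set P0 : ℕ := ⌊x / (64 * y)⌋₊ with hP0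
  set s : ℕ := ⌊x / (100 * y)⌋₊ with hs
  set t : ℕ := ⌊5 * y⌋₊ + 1 with ht
  have hP0up : (P0 : ℝ) ≤ x / (64 * y) := Nat.floor_le (by positivity)
  have hP0low : x / (64 * y) - 1 < P0 := Nat.sub_one_lt_floor _
  have hslow : x / (100 * y) - 1 < s := Nat.sub_one_lt_floor _
  have hP0x : (P0 : ℝ) ≤ x := by
    refine hP0up.trans ?_
    rw [div_le_iff₀ (by positivity)]
    nlinarith
  -- the primes
  have hP0big : (x₀ : ℝ) + A * (b : ℝ) ^ l + A ≤ P0 := by
    have h8 : 2 * ((x₀ : ℝ) + A * (b : ℝ) ^ l + A + 2) ≤ x / (64 * y) := by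
      rw [le_div_iff₀ (by positivity)]; linarith
    have h9 : (0 : ℝ) ≤ (x₀ : ℝ) + A * (b : ℝ) ^ l + A := by positivity
    linarith
  have hP0nat : x₀ + A * b ^ l + A ≤ P0 := by exact_mod_cast hP0big
  have hcnt := hcount P0 (by omega)
  set PP : Finset ℕ := {p ∈ Ioc (P0 / A) P0 | p.Prime ∧ ch p = -1} with hPP
  have hAdm : ∀ p ∈ PP, Adm b l p := by
    intro p hp
    rw [hPP, mem_filter, mem_Ioc] at hp
    refine adm_of_prime b l p hb hp.2.1 ?_ hl hp.2.2
    have h7 : b ^ l ≤ P0 / A := by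
      rw [Nat.le_div_iff_mul_le hA, mul_comm]
      omega
    omega
  have hkPP : c₁ * x / y ^ 2 ≤ #PP := by
    refine le_trans ?_ hcnt
    have hP02 : 2 ≤ P0 := by
      have : 1 ≤ A * b ^ l := Nat.mul_pos hA (pow_pos (by omega) l)
      omega
    have hlogP0 : 0 < Real.log P0 := Real.log_pos (by exact_mod_cast (by omega : 1 < P0))
    have hlogP0y : Real.log P0 ≤ y := Real.log_le_log (by exact_mod_cast (by omega : 0 < P0)) hP0x
    have hP0half : x / (128 * y) ≤ P0 := by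
      have h8 : 2 ≤ x / (64 * y) := by
        rw [le_div_iff₀ (by positivity)]
        linarith
      have e : x / (128 * y) = x / (64 * y) / 2 := by field_simp; norm_num
      rw [e]
      linarith
    rw [div_le_div_iff₀ (by positivity) hlogP0]
    calc c₁ * x * Real.log P0 ≤ c₁ * x * y := mul_le_mul_of_nonneg_left hlogP0y (by positivity)
      _ = c₀ * (x / (128 * y)) * y ^ 2 := by rw [hc₁]; field_simp
      _ ≤ c₀ * P0 * y ^ 2 := by
          apply mul_le_mul_of_nonneg_right _ (by positivity)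
          exact mul_le_mul_of_nonneg_left hP0half hc₀.le
  have hmain := main_ineq b l N P0 ⌊x ^ 3⌋₊ ⌊Real.exp (x / 8)⌋₊ s t ⌊Real.exp (x / 2)⌋₊ s PP hb hl
    hAdm (fun p hp => by
      rw [hPP, mem_filter, mem_Ioc] at hp
      exact hp.1.2) (Nat.le_floor hMx) q1 q2 q3 q4 q5 q6
  have hmainR : (#PP : ℝ) * (s * s) ≤ 8 * t * M := by exact_mod_cast hmain
  have hslow2 : x / (200 * y) ≤ s := by
    have h8 : 2 ≤ x / (100 * y) := by
      rw [le_div_iff₀ (by positivity)]; linarith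
    have e : x / (200 * y) = x / (100 * y) / 2 := by field_simp; norm_num
    rw [e]
    linarith
  have htup : (t : ℝ) ≤ 6 * y := by
    rw [ht]
    push_cast
    have := Nat.floor_le (by positivity : (0 : ℝ) ≤ 5 * y)
    linarith
  have h7 : c₁ * x / y ^ 2 * (x / (200 * y) * (x / (200 * y))) ≤ 8 * (6 * y) * M := by
    calc c₁ * x / y ^ 2 * (x / (200 * y) * (x / (200 * y))) ≤ #PP * (s * s) := by
          apply mul_le_mul hkPP _ (by positivity) (by positivity)
          exact mul_le_mul hslow2 hslow2 (by positivity) (by positivity)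
      _ ≤ 8 * t * M := hmainR
      _ ≤ 8 * (6 * y) * M := by
          apply mul_le_mul_of_nonneg_right _ (by positivity)
          linarith
  have h8 : c₂ * x ^ 3 / y ^ 5 ≤ c₁ / 1920000 * x ^ 3 / y ^ 5 := by
    apply div_le_div_of_nonneg_right _ (by positivity)
    exact mul_le_mul_of_nonneg_right (min_le_left _ _) (by positivity)
  refine h8.trans ?_
  have e : c₁ / 1920000 * x ^ 3 / y ^ 5 =
      (c₁ * x / y ^ 2 * (x / (200 * y) * (x / (200 * y)))) / (8 * (6 * y)) := by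
    field_simp
    norm_num
  rw [e, div_le_iff₀ (by positivity)]
  linarith

end Pool.Agent.DC3
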