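import Pool.Agent.Lib.DC3.Asymp1

/-!
# Digit changes of `√2` in all bases: `(log N)^3 / (log log N)^5`
-/

set_option autoImplicit false

open Finset PowerSeries Filter

namespace Pool.Agent.DC3

open Pool.Agent.DigitChanges

theorem all_bases3 (b l : ℕ) (hb : 2 ≤ b) (hl : 1 ≤ l) :
    ∃ c : ℝ, 0 < c ∧ ∃ N₀ : ℕ, ∀ N : ℕ, N₀ ≤ N →
      c * Real.log N ^ 3 / Real.log (Real.log N) ^ 5 ≤ cnt b l N := by
  obtain ⟨c, hc, hev⟩ := support_bound3 b l hb hl
  have htend : Tendsto (fun N : ℕ => Real.log (N : ℝ)) atTop atTop :=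
    Real.tendsto_log_atTop.comp tendsto_natCast_atTop_atTop
  have hloglog : Tendsto (fun N : ℕ => Real.log (Real.log (N : ℝ))) atTop atTop :=
    Real.tendsto_log_atTop.comp htend
  have e1 := htend.eventually (ev_log (2 * (l + 1) / c) 5)
  have e2 := htend.eventually (eventually_ge_atTop (1 : ℝ))
  have e3 := hloglog.eventually (eventually_ge_atTop (1 : ℝ))
  have hev2 := hev.and (e1.and (e2.and e3))
  rw [eventually_atTop] at hev2
  obtain ⟨N₀, hN₀⟩ := hev2
  refine ⟨c / 2, by positivity, N₀, fun N hN => ?_⟩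
  obtain ⟨h1, h2, h3, h4⟩ := hN₀ N hN
  have h5 := sc_Fs_le_cnt b l N (by omega)
  have h6 : (sc (Fs b l) (N + 1) : ℝ) ≤ l + 1 + cnt b l N := by exact_mod_cast h5
  set x : ℝ := Real.log N
  set y : ℝ := Real.log x
  have hy0 : 0 < y := by linarith
  have hx0 : 0 < x := by linarith
  have h7 : (l : ℝ) + 1 ≤ c / 2 * x ^ 3 / y ^ 5 := by
    rw [le_div_iff₀ (by positivity)]
    rw [div_mul_eq_mul_div, div_le_iff₀ hc] at h2
    have h8 : x ≤ x ^ 3 := le_self_pow₀ h3 (by norm_num)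
    nlinarith
  have e : c * x ^ 3 / y ^ 5 = c / 2 * x ^ 3 / y ^ 5 + c / 2 * x ^ 3 / y ^ 5 := by ring
  rw [e] at h1
  linarith

end Pool.Agent.DC3
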