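import Pool.Agent.Lib.DC3.Defs

/-!
# Basic identities for prefix sums
-/

set_option autoImplicit false

open Finset

namespace Pool.Agent.DC3

variable {k : Type*} [Field k]

/-- no jump between `n` and `n'` -/
theorem Sv_eq_of_gap (V : Finset ℕ) (μ : ℕ → k) (n n' : ℕ) (h : n ≤ n')
    (hg : ∀ a ∈ V, a ≤ n' → a ≤ n) : Sv V μ n' = Sv V μ n := by
  unfold Sv
  apply Finset.sum_congr _ (fun _ _ => rfl)
  apply Finset.filter_congr
  intro a ha
  exact ⟨hg a ha, fun h' => h'.trans h⟩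

/-- different prefix sums: there is a jump in between -/
theorem exists_jump (V : Finset ℕ) (μ : ℕ → k) (n n' : ℕ) (h : n ≤ n')
    (hne : Sv V μ n ≠ Sv V μ n') : ∃ a ∈ V, n < a ∧ a ≤ n' := by
  by_contra hcon
  apply hne
  rw [Sv_eq_of_gap V μ n n' h]
  intro a ha han
  by_contra h'
  exact hcon ⟨a, ha, not_le.1 h', han⟩

private theorem Basic_half_aux (V : Finset ℕ) (μ : ℕ → k) (t h : ℕ) (hh : h ≤ t) :
    ∑ a ∈ V with a ≤ h, μ a * Sv V μ (t - a) =
      ∑ a ∈ V, ∑ b ∈ V, if a ≤ h ∧ a + b ≤ t then μ a * μ b else 0 := by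
  rw [Finset.sum_filter]
  refine Finset.sum_congr rfl fun a _ => ?_
  unfold Sv
  by_cases ha : a ≤ h
  · rw [if_pos ha, Finset.sum_filter, Finset.mul_sum]
    refine Finset.sum_congr rfl fun b _ => ?_
    by_cases hb : a + b ≤ t
    · rw [if_pos (by omega), if_pos ⟨ha, hb⟩]
    · rw [if_neg (by omega), if_neg (fun h' => hb h'.2), mul_zero]
  · rw [if_neg ha]
    symm
    apply Finset.sum_eq_zero
    intro b _
    rw [if_neg (fun h' => ha h'.1)]

theorem Cv_eq (V : Finset ℕ) (μ : ℕ → k) (t : ℕ) :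
    Cv V μ t = ∑ a ∈ V with a ≤ t, μ a * Sv V μ (t - a) := by
  rw [Basic_half_aux V μ t t le_rfl]
  unfold Cv
  refine Finset.sum_congr rfl fun a _ => ?_
  rw [Finset.sum_filter]
  refine Finset.sum_congr rfl fun b _ => ?_
  by_cases hb : a + b ≤ t
  · rw [if_pos hb, if_pos ⟨by omega, hb⟩]
  · rw [if_neg hb, if_neg (fun h' => hb h'.2)]

/-- with `h = t / 2` (the square is symmetric; pairs with both entries `> h` have sum `> t`) -/
theorem Cv_half (V : Finset ℕ) (μ : ℕ → k) (t : ℕ) :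
    Cv V μ t = 2 * (∑ a ∈ V with a ≤ t / 2, μ a * Sv V μ (t - a)) - Sv V μ (t / 2) ^ 2 := by
  have h1 := Basic_half_aux V μ t (t / 2) (Nat.div_le_self _ _)
  have h2 : ∑ a ∈ V with a ≤ t / 2, μ a * Sv V μ (t - a) =
      ∑ a ∈ V, ∑ b ∈ V, if b ≤ t / 2 ∧ a + b ≤ t then μ a * μ b else 0 := by
    rw [h1, Finset.sum_comm]
    refine Finset.sum_congr rfl fun a _ => Finset.sum_congr rfl fun b _ => ?_
    rw [add_comm b a, mul_comm (μ b) (μ a)]
  have h3 : Sv V μ (t / 2) ^ 2 =
      ∑ a ∈ V, ∑ b ∈ V, if a ≤ t / 2 ∧ b ≤ t / 2 then μ a * μ b else 0 := by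
    unfold Sv
    rw [sq, Finset.sum_mul_sum, Finset.sum_filter]
    refine Finset.sum_congr rfl fun a _ => ?_
    by_cases ha : a ≤ t / 2
    · rw [if_pos ha, Finset.sum_filter]
      refine Finset.sum_congr rfl fun b _ => ?_
      by_cases hb : b ≤ t / 2
      · rw [if_pos hb, if_pos ⟨ha, hb⟩]
      · rw [if_neg hb, if_neg (fun h' => hb h'.2)]
    · rw [if_neg ha]
      symm
      apply Finset.sum_eq_zero
      intro b _
      rw [if_neg (fun h' => ha h'.1)]
  rw [two_mul]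
  conv_rhs => rw [h3]
  nth_rewrite 1 [h1]
  rw [h2, ← Finset.sum_add_distrib, ← Finset.sum_sub_distrib]
  unfold Cv
  refine Finset.sum_congr rfl fun a _ => ?_
  rw [Finset.sum_filter, ← Finset.sum_add_distrib, ← Finset.sum_sub_distrib]
  refine Finset.sum_congr rfl fun b _ => ?_
  have h4 := Nat.div_add_mod t 2
  have h5 := Nat.mod_lt t (by norm_num : 0 < 2)
  by_cases ha : a ≤ t / 2 <;> by_cases hb : b ≤ t / 2 <;> by_cases hab : a + b ≤ t
  all_goals simp only [ha, hb, hab, and_self, and_true, and_false, if_true, if_false, true_and,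
    false_and, add_zero, zero_add, sub_zero, sub_self, add_sub_cancel_right]
  all_goals first
    | rfl
    | (exfalso; omega)

end Pool.Agent.DC3
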