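import Pool.Agent.Lib.DC3.Basic

/-!
# Merging clusters
-/

set_option autoImplicit false

open Finset

namespace Pool.Agent.DC3

variable {k : Type*} [Field k]

/-- the largest element of `V0` which is at most `a` -/
noncomputable def pfst (V0 : Finset ℕ) (a : ℕ) : ℕ := (V0.filter (· ≤ a)).sup id

theorem le_pfst {V0 : Finset ℕ} {a y : ℕ} (hy : y ∈ V0) (hya : y ≤ a) : y ≤ pfst V0 a :=
  Finset.le_sup (f := id) (mem_filter.2 ⟨hy, hya⟩)

theorem pfst_mem {V0 : Finset ℕ} {a y : ℕ} (hy : y ∈ V0) (hya : y ≤ a) :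
    pfst V0 a ∈ V0 ∧ pfst V0 a ≤ a := by
  have hne : (V0.filter (· ≤ a)).Nonempty := ⟨y, mem_filter.2 ⟨hy, hya⟩⟩
  obtain ⟨z, hz, hze⟩ := Finset.exists_mem_eq_sup _ hne id
  have : pfst V0 a = z := hze
  rw [this]
  exact ⟨(mem_filter.1 hz).1, (mem_filter.1 hz).2⟩

/-- the starts of the chains -/
def starts (V : Finset ℕ) (r : ℕ) : Finset ℕ :=
  V.filter (fun x => ∀ a ∈ V, ¬ (a < x ∧ x ≤ a + r))

theorem mem_starts {V : Finset ℕ} {r x : ℕ} :
    x ∈ starts V r ↔ x ∈ V ∧ ∀ a ∈ V, ¬ (a < x ∧ x ≤ a + r) := by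
  simp [starts]

theorem exists_start {V : Finset ℕ} {r a : ℕ} (ha : a ∈ V) : ∃ y ∈ starts V r, y ≤ a := by
  have hne : V.Nonempty := ⟨a, ha⟩
  refine ⟨V.min' hne, mem_starts.2 ⟨V.min'_mem hne, ?_⟩, V.min'_le a ha⟩
  intro b hb hlt
  exact absurd (V.min'_le b hb) (by omega)

theorem P_mem {V : Finset ℕ} {r a : ℕ} (ha : a ∈ V) :
    pfst (starts V r) a ∈ starts V r ∧ pfst (starts V r) a ≤ a := by
  obtain ⟨y, hy, hya⟩ := exists_start (r := r) ha
  exact pfst_mem hy hya

theorem P_start {V : Finset ℕ} {r a : ℕ} (ha : a ∈ starts V r) : pfst (starts V r) a = a := by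
  have h1 := pfst_mem ha (le_refl a)
  have h2 := le_pfst ha (le_refl a)
  omega

theorem P_bound_aux (V : Finset ℕ) (r : ℕ) : ∀ a ∈ V,
    a ≤ pfst (starts V r) a + r * #{x ∈ V | pfst (starts V r) a < x ∧ x ≤ a} := by
  intro a
  induction a using Nat.strong_induction_on with
  | _ a ih =>
    intro ha
    by_cases hs : a ∈ starts V r
    · rw [P_start hs]; omega
    · have hP := P_mem (r := r) ha
      have hne : pfst (starts V r) a ≠ a := by
        intro h; rw [h] at hP; exact hs hP.1
      have hlt : pfst (starts V r) a < a := lt_of_le_of_ne hP.2 hne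
      have hex : ∃ a' ∈ V, a' < a ∧ a ≤ a' + r := by
        by_contra hcon
        push Not at hcon
        exact hs (mem_starts.2 ⟨ha, fun b hb hh => absurd (hcon b hb hh.1) (by omega)⟩)
      obtain ⟨a', ha', h1, h2⟩ := hex
      by_cases hc : pfst (starts V r) a ≤ a'
      · have hPa' := P_mem (r := r) ha'
        have heq : pfst (starts V r) a' = pfst (starts V r) a := by
          have h3 := le_pfst (a := a') hP.1 hc
          have h4 := le_pfst (a := a) hPa'.1 (by omega)
          omega
        have hih := ih a' h1 ha'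
        rw [heq] at hih
        have hcard : #{x ∈ V | pfst (starts V r) a < x ∧ x ≤ a'} + 1 ≤
            #{x ∈ V | pfst (starts V r) a < x ∧ x ≤ a} := by
          apply Nat.succ_le_of_lt
          apply Finset.card_lt_card
          rw [Finset.ssubset_iff_of_subset]
          · exact ⟨a, mem_filter.2 ⟨ha, hlt, le_refl a⟩, fun h => by
              have := (mem_filter.1 h).2.2
              omega⟩
          · intro x hx
            rw [mem_filter] at hx ⊢
            exact ⟨hx.1, hx.2.1, by omega⟩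
        calc a ≤ a' + r := h2
          _ ≤ pfst (starts V r) a + r * (#{x ∈ V | pfst (starts V r) a < x ∧ x ≤ a'} + 1) := by
              rw [mul_add, mul_one]; omega
          _ ≤ _ := by gcongr
      · push Not at hc
        have hcard : 1 ≤ #{x ∈ V | pfst (starts V r) a < x ∧ x ≤ a} :=
          Finset.card_pos.2 ⟨a, mem_filter.2 ⟨ha, hlt, le_refl a⟩⟩
        calc a ≤ pfst (starts V r) a + r * 1 := by omega
          _ ≤ _ := by gcongr

theorem P_bound {V : Finset ℕ} {m : ℕ} (hV : #V ≤ m) (r : ℕ) {a : ℕ} (ha : a ∈ V) :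
    a ≤ pfst (starts V r) a + m * r := by
  refine (P_bound_aux V r a ha).trans ?_
  rw [mul_comm m r]
  gcongr
  exact (Finset.card_le_card (Finset.filter_subset _ _)).trans hV

/-- the merged masses -/
noncomputable def mm (V : Finset ℕ) (μ : ℕ → k) (r x : ℕ) : k :=
  ∑ a ∈ V with pfst (starts V r) a = x, μ a

open Classical in
theorem sum_mm (V : Finset ℕ) (μ : ℕ → k) (r : ℕ) (f : ℕ → k) :
    ∑ x ∈ (starts V r).filter (fun x => mm V μ r x ≠ 0), mm V μ r x * f x =
      ∑ a ∈ V, μ a * f (pfst (starts V r) a) := by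
  rw [← Finset.sum_fiberwise_of_maps_to (s := V) (t := starts V r)
    (g := fun a => pfst (starts V r) a) (fun a ha => (P_mem ha).1), Finset.sum_filter]
  refine Finset.sum_congr rfl fun x hx => ?_
  have h1 : ∑ a ∈ V with pfst (starts V r) a = x, μ a * f (pfst (starts V r) a) =
      mm V μ r x * f x := by
    rw [mm, Finset.sum_mul]
    refine Finset.sum_congr rfl fun a ha => ?_
    rw [(mem_filter.1 ha).2]
  rw [h1]
  split_ifs with h
  · rfl
  · push Not at h
    rw [h, zero_mul]

open Classical in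
theorem Cv_mm (V : Finset ℕ) (μ : ℕ → k) (r t : ℕ) :
    Cv ((starts V r).filter (fun x => mm V μ r x ≠ 0)) (mm V μ r) t =
      ∑ a ∈ V, ∑ b ∈ V with pfst (starts V r) a + pfst (starts V r) b ≤ t, μ a * μ b := by
  unfold Cv
  have h1 : ∀ x : ℕ, ∑ y ∈ (starts V r).filter (fun x => mm V μ r x ≠ 0) with x + y ≤ t,
      mm V μ r x * mm V μ r y =
      mm V μ r x * ∑ b ∈ V, μ b * (if x + pfst (starts V r) b ≤ t then 1 else 0) := by
    intro x
    rw [← sum_mm V μ r (fun y => if x + y ≤ t then 1 else 0), Finset.sum_filter, Finset.mul_sum]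
    refine Finset.sum_congr rfl fun y _ => ?_
    split_ifs <;> simp
  rw [Finset.sum_congr rfl (fun x _ => h1 x),
    sum_mm V μ r (fun x => ∑ b ∈ V, μ b * (if x + pfst (starts V r) b ≤ t then 1 else 0))]
  refine Finset.sum_congr rfl fun a _ => ?_
  rw [Finset.sum_filter, Finset.mul_sum]
  refine Finset.sum_congr rfl fun b _ => ?_
  split_ifs <;> simp

/-- the new exceptional set -/
noncomputable def Zn (V Z : Finset ℕ) (r : ℕ) : Finset ℕ :=
  Z ∪ (V ×ˢ V).biUnion (fun p => Ico (pfst (starts V r) p.1 + pfst (starts V r) p.2) (p.1 + p.2))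

theorem card_Zn {V Z : Finset ℕ} {w m : ℕ} (r : ℕ) (hV : #V ≤ m) (hZ : #Z ≤ w) :
    #(Zn V Z r) ≤ w + 2 * m ^ 3 * r := by
  unfold Zn
  refine (Finset.card_union_le _ _).trans ?_
  refine Nat.add_le_add hZ ?_
  refine (Finset.card_biUnion_le_card_mul _ _ (2 * m * r) ?_).trans ?_
  · intro p hp
    rw [Finset.mem_product] at hp
    have h1 := P_bound hV r hp.1
    have h2 := P_bound hV r hp.2
    rw [Nat.card_Ico]
    have : 2 * m * r = m * r + m * r := by ring
    omega
  · rw [Finset.card_product]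
    calc #V * #V * (2 * m * r) ≤ m * m * (2 * m * r) := by gcongr
      _ = 2 * m ^ 3 * r := by ring

/-- Merge each chain of points of `V` with gaps at most `r` into its first point and drop the
points of mass zero. -/
theorem clean {N w m : ℕ} {D : k} (Y : Sys k N w m D) (r : ℕ) :
    ∃ Y' : Sys k N (w + 2 * m ^ 3 * r) m D, Y'.V ⊆ Y.V ∧
      (∀ a ∈ Y'.V, ∀ b ∈ Y'.V, a < b → a + r < b) ∧
      ∀ v ∈ Y'.V, ∃ e, v ≤ e ∧ e ≤ v + m * r ∧ ∀ n₁ n₂, n₁ < v → v ≤ n₁ + r → e ≤ n₂ →
        n₂ ≤ e + r → Sv Y.V Y.μ n₁ ≠ Sv Y.V Y.μ n₂ := by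
  classical
  refine ⟨⟨(starts Y.V r).filter (fun x => mm Y.V Y.μ r x ≠ 0), mm Y.V Y.μ r, Zn Y.V Y.Z r,
    ?_, ?_, card_Zn r Y.cardV Y.cardZ, ?_⟩, ?_, ?_, ?_⟩
  · intro a ha
    exact (mem_filter.1 ha).2
  · refine (Finset.card_le_card ?_).trans Y.cardV
    exact (Finset.filter_subset _ _).trans (Finset.filter_subset _ _)
  · intro t ht htZ
    have hZ : t ∉ Y.Z := fun h => htZ (Finset.mem_union_left _ h)
    refine Eq.trans ?_ (Y.rel t ht hZ)
    rw [Cv_mm]
    unfold Cv
    refine Finset.sum_congr rfl fun a ha => ?_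
    refine Finset.sum_congr ?_ fun b _ => rfl
    refine Finset.filter_congr fun b hb => ?_
    have h1 := (P_mem (r := r) ha).2
    have h2 := (P_mem (r := r) hb).2
    constructor
    · intro h
      by_contra hcon
      apply htZ
      refine Finset.mem_union_right _ (Finset.mem_biUnion.2 ⟨(a, b), Finset.mem_product.2 ⟨ha, hb⟩, ?_⟩)
      exact Finset.mem_Ico.2 ⟨h, not_le.1 hcon⟩
    · intro h
      omega
  · exact (Finset.filter_subset _ _).trans (Finset.filter_subset _ _)
  · intro a ha b hb hab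
    have hb' := (mem_starts.1 (mem_filter.1 hb).1).2 a
      (mem_starts.1 (mem_filter.1 ha).1).1
    by_contra hcon
    exact hb' ⟨hab, by omega⟩
  · intro v hv
    have hv0 : v ∈ starts Y.V r := (mem_filter.1 hv).1
    have hvV : v ∈ Y.V := (mem_starts.1 hv0).1
    have hne : (Y.V.filter (fun a => pfst (starts Y.V r) a = v)).Nonempty :=
      ⟨v, mem_filter.2 ⟨hvV, P_start hv0⟩⟩
    obtain ⟨heV, hev⟩ := mem_filter.1 (Finset.max'_mem _ hne)
    set e := (Y.V.filter (fun a => pfst (starts Y.V r) a = v)).max' hne with he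
    have hve : v ≤ e := by
      have := (P_mem (r := r) heV).2
      omega
    refine ⟨e, hve, ?_, ?_⟩
    · have := P_bound Y.cardV r heV
      omega
    · intro n₁ n₂ h1 h2 h3 h4
      have hsub : Sv Y.V Y.μ n₂ = Sv Y.V Y.μ n₁ + mm Y.V Y.μ r v := by
        unfold Sv mm
        rw [← Finset.sum_filter_add_sum_filter_not (Y.V.filter (· ≤ n₂)) (· ≤ n₁)]
        rw [Finset.filter_filter, Finset.filter_filter]
        congr 1
        · refine Finset.sum_congr (Finset.filter_congr fun a _ => ?_) fun _ _ => rfl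
          omega
        · refine Finset.sum_congr (Finset.filter_congr fun a ha => ?_) fun _ _ => rfl
          have hPa := P_mem (r := r) ha
          constructor
          · rintro ⟨h5, h6⟩
            have hva : v ≤ a := by
              by_contra hcon
              exact (mem_starts.1 hv0).2 a ha ⟨by omega, by omega⟩
            have h7 := le_pfst hv0 hva
            by_contra hcon
            have h8 : v < pfst (starts Y.V r) a := by omega
            have h9 : e < pfst (starts Y.V r) a := by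
              by_contra hc2
              have := le_pfst hPa.1 (not_lt.1 hc2)
              omega
            exact (mem_starts.1 hPa.1).2 e heV ⟨h9, by omega⟩
          · intro h5
            have h6 : a ≤ e := Finset.le_max' _ a (mem_filter.2 ⟨ha, h5⟩)
            have h7 := hPa.2
            constructor <;> omega
      rw [hsub]
      intro hcon
      exact (mem_filter.1 hv).2 (by simpa using hcon)

end Pool.Agent.DC3
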