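import Mathlib

/-!
# Sparse measures over a field with constant square

`Sys k N w m D` is a finitely supported measure `μ` on `ℕ` (with support `V`, at most `m` points)
such that the prefix sums of `μ * μ` are equal to `D` at all `t < N` outside of a set of at most
`w` elements.
-/

set_option autoImplicit false

open Finset

namespace Pool.Agent.DC3

variable {k : Type*} [Field k]

/-- prefix sum of the measure at `n` -/
noncomputable def Sv (V : Finset ℕ) (μ : ℕ → k) (n : ℕ) : k := ∑ a ∈ V with a ≤ n, μ a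

/-- prefix sum of the square of the measure at `t` -/
noncomputable def Cv (V : Finset ℕ) (μ : ℕ → k) (t : ℕ) : k :=
  ∑ a ∈ V, ∑ b ∈ V with a + b ≤ t, μ a * μ b

/-- measures with constant square -/
structure Sys (k : Type*) [Field k] (N w m : ℕ) (D : k) where
  V : Finset ℕ
  μ : ℕ → k
  Z : Finset ℕ
  nz : ∀ a ∈ V, μ a ≠ 0
  cardV : #V ≤ m
  cardZ : #Z ≤ w
  rel : ∀ t < N, t ∉ Z → Cv V μ t = D

/-- `U` has a difference `v - u` or a combination `u + v - z` in `[ρ, K ρ]`. -/
def Hit (U : Finset ℕ) (ρ K : ℕ) : Prop :=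
  (∃ u ∈ U, ∃ v ∈ U, u + ρ ≤ v ∧ v ≤ u + K * ρ) ∨
    (∃ u ∈ U, ∃ v ∈ U, ∃ z ∈ U, z + ρ ≤ u + v ∧ u + v ≤ z + K * ρ)

end Pool.Agent.DC3
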