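import Mathlib

/-!
# Near dilations by many primes
-/

set_option autoImplicit false

open Finset

namespace Pool.Agent.DC3

theorem graph_val_self {p : ℕ} (hp : p.Prime) {e : ℚ} (he : e = (p : ℚ) ∨ e = (p : ℚ)⁻¹) :
    padicValRat p e ≠ 0 := by
  have : Fact p.Prime := ⟨hp⟩
  rcases he with rfl | rfl
  · rw [padicValRat.self hp.one_lt]; norm_num
  · rw [padicValRat.inv, padicValRat.self hp.one_lt]; norm_num

theorem graph_val_ne {p r : ℕ} (hp : p.Prime) (hr : r.Prime) (hne : r ≠ p) {e : ℚ}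
    (he : e = (p : ℚ) ∨ e = (p : ℚ)⁻¹) : padicValRat r e = 0 := by
  have : Fact p.Prime := ⟨hp⟩
  have : Fact r.Prime := ⟨hr⟩
  rcases he with rfl | rfl
  · rw [padicValRat.of_nat, padicValNat_primes hne]; rfl
  · rw [padicValRat.inv, padicValRat.of_nat, padicValNat_primes hne]; rfl

/-- the labels of the edges at `x` inside `U` -/
def graphLab (P : Finset ℕ) (X : ℕ → Finset ℕ) (f : ℕ → ℕ → ℕ) (U : Finset ℕ) (x : ℕ) :
    Finset ℕ :=
  P.filter fun p => (x ∈ X p ∧ f p x ∈ U) ∨ ∃ a ∈ X p, a ∈ U ∧ f p a = x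

theorem graph_nbr {P : Finset ℕ} {X : ℕ → Finset ℕ} {f : ℕ → ℕ → ℕ} {U : Finset ℕ} {η x p : ℕ}
    (hprime : ∀ p ∈ P, p.Prime)
    (herr : ∀ p ∈ P, ∀ x ∈ X p, p * f p x ≤ x + η ∧ x ≤ p * f p x + η)
    (hp : p ∈ graphLab P X f U x) :
    ∃ x1 ∈ U, ∃ e : ℚ, (e = (p : ℚ) ∨ e = (p : ℚ)⁻¹) ∧ |(x1 : ℚ) - e * x| ≤ η := by
  rw [graphLab, mem_filter] at hp
  obtain ⟨hpP, h⟩ := hp
  have hp1 : (1 : ℚ) ≤ p := by exact_mod_cast (hprime p hpP).one_lt.le
  have hp0 : (0 : ℚ) < p := by linarith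
  rcases h with ⟨hx, hU⟩ | ⟨a, ha, haU, rfl⟩
  · refine ⟨f p x, hU, (p : ℚ)⁻¹, Or.inr rfl, ?_⟩
    obtain ⟨h1, h2⟩ := herr p hpP x hx
    have h1' : (p : ℚ) * f p x ≤ x + η := by exact_mod_cast h1
    have h2' : (x : ℚ) ≤ p * f p x + η := by exact_mod_cast h2
    have h3 : (f p x : ℚ) - (p : ℚ)⁻¹ * x = (p : ℚ)⁻¹ * (p * f p x - x) := by
      field_simp
    have h4 : |(p : ℚ) * f p x - x| ≤ η := abs_le.2 ⟨by linarith, by linarith⟩
    rw [h3, abs_mul, abs_of_pos (inv_pos.2 hp0)]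
    calc (p : ℚ)⁻¹ * |(p : ℚ) * f p x - x| ≤ 1 * η :=
          mul_le_mul (inv_le_one_of_one_le₀ hp1) h4 (abs_nonneg _) zero_le_one
      _ = η := one_mul _
  · refine ⟨a, haU, (p : ℚ), Or.inl rfl, ?_⟩
    obtain ⟨h1, h2⟩ := herr p hpP a ha
    have h1' : (p : ℚ) * f p a ≤ a + η := by exact_mod_cast h1
    have h2' : (a : ℚ) ≤ p * f p a + η := by exact_mod_cast h2
    exact abs_le.2 ⟨by linarith, by linarith⟩

theorem graph_tree {P : Finset ℕ} {X : ℕ → Finset ℕ} {f : ℕ → ℕ → ℕ} {U : Finset ℕ}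
    {η P0 s : ℕ} (hprime : ∀ p ∈ P, p.Prime) (hP : ∀ p ∈ P, p ≤ P0)
    (herr : ∀ p ∈ P, ∀ x ∈ X p, p * f p x ≤ x + η ∧ x ≤ p * f p x + η)
    (hL : ∀ x ∈ U, 2 * s ≤ #(graphLab P X f U x)) (n : ℕ) :
    ∀ x ∈ U, ∀ Q : Finset ℕ, #Q + 2 * n ≤ 2 * s → ∃ W : Finset ℚ, #W = 2 ^ n ∧ ∀ q ∈ W,
      0 < q ∧ q ≤ (P0 : ℚ) ^ n ∧ (∃ v : ℕ, 1 ≤ v ∧ v ≤ P0 ^ n ∧ ∃ k : ℕ, (v : ℚ) * q = k) ∧
      (∀ p ∈ Q, p.Prime → padicValRat p q = 0) ∧
      ∃ y ∈ U, |(y : ℚ) - q * x| ≤ n * (P0 : ℚ) ^ n * η := by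
  classical
  induction n with
  | zero =>
    intro x hx Q _
    refine ⟨{1}, by simp, ?_⟩
    intro q hq
    rw [mem_singleton] at hq
    subst hq
    refine ⟨one_pos, by simp, ⟨1, le_rfl, by simp, 1, by simp⟩, ?_, x, hx, by simp⟩
    intro p _ _
    exact padicValRat.one
  | succ n ih =>
    intro x hx Q hQ
    have h1 : 1 < #((graphLab P X f U x) \ Q) := by
      have := le_card_sdiff Q (graphLab P X f U x)
      have := hL x hx
      omega
    obtain ⟨p, hp, p', hp', hne⟩ := one_lt_card.1 h1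
    rw [mem_sdiff] at hp hp'
    have hpP : p ∈ P := (mem_filter.1 hp.1).1
    have hpP' : p' ∈ P := (mem_filter.1 hp'.1).1
    have hpr := hprime p hpP
    have hpr' := hprime p' hpP'
    have hP01 : (1 : ℚ) ≤ P0 := by
      have := (hprime p hpP).one_lt.le.trans (hP p hpP)
      exact_mod_cast this
    have hcard : #(insert p (insert p' Q)) + 2 * n ≤ 2 * s := by
      have h2 := card_insert_le p (insert p' Q)
      have h3 := card_insert_le p' Q
      omega
    -- one side of the step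
    have side : ∀ r ∈ P, r ∉ Q → r ∈ insert p (insert p' Q) → ∀ x1 ∈ U, ∀ e : ℚ,
        (e = (r : ℚ) ∨ e = (r : ℚ)⁻¹) → |(x1 : ℚ) - e * x| ≤ η →
        ∃ W : Finset ℚ, #W = 2 ^ n ∧ ∀ q ∈ W,
          0 < q ∧ q ≤ (P0 : ℚ) ^ (n + 1) ∧
          (∃ v : ℕ, 1 ≤ v ∧ v ≤ P0 ^ (n + 1) ∧ ∃ k : ℕ, (v : ℚ) * q = k) ∧
          (∀ p ∈ Q, p.Prime → padicValRat p q = 0) ∧
          (∃ y ∈ U, |(y : ℚ) - q * x| ≤ (n + 1 : ℕ) * (P0 : ℚ) ^ (n + 1) * η) ∧
          padicValRat r q ≠ 0 ∧ (∀ t ∈ insert p (insert p' Q), t.Prime → t ≠ r →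
            padicValRat t q = 0) := by
      intro r hr hrQ hrQ' x1 hx1 e he hxe
      have hrp := hprime r hr
      have hr1 : (1 : ℚ) ≤ r := by exact_mod_cast hrp.one_lt.le
      have hr0 : (0 : ℚ) < r := by linarith
      have hrP : (r : ℚ) ≤ P0 := by exact_mod_cast hP r hr
      have he0 : 0 < e := by
        rcases he with rfl | rfl
        · exact hr0
        · exact inv_pos.2 hr0
      have heP : e ≤ P0 := by
        rcases he with rfl | rfl
        · exact hrP
        · exact (inv_le_one_of_one_le₀ hr1).trans hP01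
      obtain ⟨W, hW, hWq⟩ := ih x1 hx1 _ hcard
      refine ⟨W.image fun q => e * q, ?_, ?_⟩
      · rw [card_image_of_injective _ (mul_right_injective₀ he0.ne'), hW]
      · intro z hz
        rw [mem_image] at hz
        obtain ⟨q, hq, rfl⟩ := hz
        obtain ⟨hq0, hqP, ⟨v, hv1, hvP, k, hk⟩, hval, y, hy, hyq⟩ := hWq q hq
        have hvalm : ∀ t : ℕ, t.Prime → padicValRat t (e * q) =
            padicValRat t e + padicValRat t q := by
          intro t ht
          have : Fact t.Prime := ⟨ht⟩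
          exact padicValRat.mul he0.ne' hq0.ne'
        refine ⟨mul_pos he0 hq0, ?_, ?_, ?_, ?_, ?_, ?_⟩
        · rw [pow_succ, mul_comm]
          exact mul_le_mul hqP heP he0.le (by positivity)
        · rcases he with rfl | rfl
          · refine ⟨v, hv1, hvP.trans (Nat.pow_le_pow_right ?_ (Nat.le_succ n)), r * k, ?_⟩
            · exact_mod_cast hP01
            · push_cast
              rw [← hk]; ring
          · refine ⟨v * r, ?_, ?_, k, ?_⟩
            · exact Nat.mul_pos hv1 hrp.pos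
            · rw [pow_succ]
              exact Nat.mul_le_mul hvP (hP r hr)
            · push_cast
              rw [← hk]; field_simp
        · intro t ht htp
          rw [hvalm t htp, hval t (by simp [ht]) htp, add_zero]
          exact graph_val_ne hrp htp (fun h => hrQ (h ▸ ht)) he
        · refine ⟨y, hy, ?_⟩
          have h5 : (y : ℚ) - e * q * x = (y - q * x1) + q * (x1 - e * x) := by ring
          rw [h5]
          refine (abs_add_le _ _).trans ?_
          rw [abs_mul, abs_of_pos hq0]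
          have h6 : q * |(x1 : ℚ) - e * x| ≤ (P0 : ℚ) ^ n * η :=
            mul_le_mul hqP hxe (abs_nonneg _) (by positivity)
          have h7 : (P0 : ℚ) ^ n ≤ (P0 : ℚ) ^ (n + 1) :=
            pow_le_pow_right₀ hP01 (Nat.le_succ n)
          have h8 : (n + 1 : ℕ) * (P0 : ℚ) ^ n * η ≤ (n + 1 : ℕ) * (P0 : ℚ) ^ (n + 1) * η := by
            gcongr
          refine le_trans ?_ h8
          push_cast
          nlinarith
        · rw [hvalm r hrp, hval r hrQ' hrp, add_zero]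
          exact graph_val_self hrp he
        · intro t ht htp htr
          rw [hvalm t htp, hval t ht htp, add_zero]
          exact graph_val_ne hrp htp htr he
    obtain ⟨x1, hx1, e1, he1, hxe1⟩ := graph_nbr hprime herr hp.1
    obtain ⟨x2, hx2, e2, he2, hxe2⟩ := graph_nbr hprime herr hp'.1
    obtain ⟨W1, hW1, hWq1⟩ := side p hpP hp.2 (by simp) x1 hx1 e1 he1 hxe1
    obtain ⟨W2, hW2, hWq2⟩ := side p' hpP' hp'.2 (by simp) x2 hx2 e2 he2 hxe2
    refine ⟨W1 ∪ W2, ?_, ?_⟩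
    · rw [card_union_of_disjoint, hW1, hW2]
      · ring
      · rw [disjoint_left]
        intro z hz1 hz2
        obtain ⟨_, _, _, _, _, h1, _⟩ := hWq1 z hz1
        obtain ⟨_, _, _, _, _, _, h2⟩ := hWq2 z hz2
        exact h1 (h2 p (by simp) hpr hne)
    · intro q hq
      rcases mem_union.1 hq with h | h
      · obtain ⟨a1, a2, a3, a4, a5, _, _⟩ := hWq1 q h
        exact ⟨a1, a2, a3, a4, a5⟩
      · obtain ⟨a1, a2, a3, a4, a5, _, _⟩ := hWq2 q h
        exact ⟨a1, a2, a3, a4, a5⟩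

theorem graph_claim {A P : Finset ℕ} {X : ℕ → Finset ℕ} {f : ℕ → ℕ → ℕ} {P0 η g s : ℕ}
    (hprime : ∀ p ∈ P, p.Prime) (hP : ∀ p ∈ P, p ≤ P0)
    (hg : ∀ p ∈ P, ∀ x ∈ X p, g ≤ x)
    (herr : ∀ p ∈ P, ∀ x ∈ X p, p * f p x ≤ x + η ∧ x ≤ p * f p x + η)
    (hs : #A < 2 ^ s) (hs1 : 1 ≤ s) (hbig : 8 * s * (η + 1) * P0 ^ (3 * s + 1) < g)
    {U : Finset ℕ} (hU : U ⊆ A) (hne : U.Nonempty) :
    ∃ x ∈ U, #(graphLab P X f U x) < 2 * s := by
  classical
  by_contra hcon
  push Not at hcon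
  obtain ⟨x, hx⟩ := hne
  obtain ⟨W, hW, hWq⟩ := graph_tree hprime hP herr hcon s x hx ∅ (by simp)
  -- size of `x`
  have hP01 : 1 ≤ P0 ∧ g ≤ P0 * x + η := by
    have h1 : 0 < #(graphLab P X f U x) := by have := hcon x hx; omega
    obtain ⟨p, hp⟩ := card_pos.1 h1
    rw [graphLab, mem_filter] at hp
    obtain ⟨hpP, h⟩ := hp
    have hp1 := (hprime p hpP).one_lt.le
    have hpP0 := hP p hpP
    refine ⟨hp1.trans hpP0, ?_⟩
    rcases h with ⟨hxp, _⟩ | ⟨a, ha, _, rfl⟩
    · have h2 := hg p hpP x hxp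
      have h3 : x ≤ P0 * x := Nat.le_mul_of_pos_left x (by omega)
      omega
    · have h2 := hg p hpP a ha
      have h3 := (herr p hpP a ha).2
      have h4 : p * f p a ≤ P0 * f p a := Nat.mul_le_mul_right _ hpP0
      omega
  obtain ⟨hP1, hxg⟩ := hP01
  have hP1' : (1 : ℚ) ≤ P0 := by exact_mod_cast hP1
  choose! y hyU hyq using fun q hq => (hWq q hq).2.2.2.2
  have hinj : Set.InjOn y W := by
    intro q hq q' hq' he
    by_contra hqq
    obtain ⟨hq0, hqP, ⟨v, hv1, hvP, k, hk⟩, _, _⟩ := hWq q hq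
    obtain ⟨hq0', hqP', ⟨v', hv1', hvP', k', hk'⟩, _, _⟩ := hWq q' hq'
    have h1 := hyq q hq
    have h2 := hyq q' hq'
    rw [he] at h1
    have h3 : |(q - q') * x| ≤ 2 * (s * (P0 : ℚ) ^ s * η) := by
      have : (q - q') * (x : ℚ) = (y q' - q' * x) - (y q' - q * x) := by ring
      rw [this]
      have := abs_sub (y q' - q' * x : ℚ) (y q' - q * x)
      linarith
    have h4 : (1 : ℚ) ≤ |(v : ℚ) * v' * (q - q')| := by
      have h5 : (v : ℚ) * v' * (q - q') = ((v' * k - v * k' : ℤ) : ℚ) := by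
        push_cast
        rw [← hk, ← hk']; ring
      rw [h5, ← Int.cast_abs]
      have h6 : (v' * k - v * k' : ℤ) ≠ 0 := by
        intro h0
        rw [h0] at h5
        have hvv : (v : ℚ) * v' ≠ 0 := by
          have : 0 < v * v' := Nat.mul_pos hv1 hv1'
          exact_mod_cast this.ne'
        have := (mul_eq_zero.1 (h5.trans (by simp))).resolve_left hvv
        exact hqq (sub_eq_zero.1 this)
      exact_mod_cast Int.one_le_abs h6
    have h5 : (v : ℚ) * v' ≤ (P0 : ℚ) ^ (2 * s) := by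
      have : v * v' ≤ P0 ^ s * P0 ^ s := Nat.mul_le_mul hvP hvP'
      have h6 : P0 ^ s * P0 ^ s = P0 ^ (2 * s) := by ring
      rw [h6] at this
      exact_mod_cast this
    have h6 : (1 : ℚ) ≤ (P0 : ℚ) ^ (2 * s) * |q - q'| := by
      rw [abs_mul, abs_of_nonneg (by positivity)] at h4
      exact h4.trans (mul_le_mul_of_nonneg_right h5 (abs_nonneg _))
    have h7 : (x : ℚ) ≤ 2 * s * η * (P0 : ℚ) ^ (3 * s) := by
      have hx0 : (0 : ℚ) ≤ x := by positivity
      rw [abs_mul, abs_of_nonneg hx0] at h3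
      calc (x : ℚ) = 1 * x := (one_mul _).symm
        _ ≤ (P0 : ℚ) ^ (2 * s) * |q - q'| * x := mul_le_mul_of_nonneg_right h6 hx0
        _ = (P0 : ℚ) ^ (2 * s) * (|q - q'| * x) := by ring
        _ ≤ (P0 : ℚ) ^ (2 * s) * (2 * (s * (P0 : ℚ) ^ s * η)) :=
            mul_le_mul_of_nonneg_left h3 (by positivity)
        _ = 2 * s * η * (P0 : ℚ) ^ (3 * s) := by ring
    have h8 : x ≤ 2 * s * η * P0 ^ (3 * s) := by exact_mod_cast h7
    have h9 : P0 * x ≤ 2 * s * η * P0 ^ (3 * s + 1) := by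
      calc P0 * x ≤ P0 * (2 * s * η * P0 ^ (3 * s)) := Nat.mul_le_mul_left _ h8
        _ = 2 * s * η * P0 ^ (3 * s + 1) := by ring
    have h10 : 1 ≤ P0 ^ (3 * s + 1) := Nat.one_le_pow _ _ hP1
    have h11 : η ≤ s * η * P0 ^ (3 * s + 1) := by
      calc η = 1 * η * 1 := by ring
        _ ≤ s * η * P0 ^ (3 * s + 1) := by gcongr
    have h12 : 8 * s * (η + 1) * P0 ^ (3 * s + 1) =
        8 * (s * η * P0 ^ (3 * s + 1)) + 8 * s * P0 ^ (3 * s + 1) := by ring
    have h13 : 2 * s * η * P0 ^ (3 * s + 1) = 2 * (s * η * P0 ^ (3 * s + 1)) := by ring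
    have h14 : 0 ≤ 8 * s * P0 ^ (3 * s + 1) := Nat.zero_le _
    omega
  have h1 : #W ≤ #U := card_le_card_of_injOn y (fun q hq => hyU q hq) hinj
  have h2 := card_le_card hU
  omega

theorem graph_edges {A P : Finset ℕ} {X : ℕ → Finset ℕ} {f : ℕ → ℕ → ℕ} {P0 η g s : ℕ}
    (hprime : ∀ p ∈ P, p.Prime) (hP : ∀ p ∈ P, p ≤ P0)
    (hg : ∀ p ∈ P, ∀ x ∈ X p, g ≤ x)
    (herr : ∀ p ∈ P, ∀ x ∈ X p, p * f p x ≤ x + η ∧ x ≤ p * f p x + η)
    (hsep : ∀ p ∈ P, ∀ x ∈ X p, ∀ y ∈ X p, x < y → x + 2 * η < y)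
    (hs : #A < 2 ^ s) (hs1 : 1 ≤ s) (hbig : 8 * s * (η + 1) * P0 ^ (3 * s + 1) < g) (n : ℕ) :
    ∀ U : Finset ℕ, U ⊆ A → #U = n →
      ∑ p ∈ P, #((X p).filter fun a => a ∈ U ∧ f p a ∈ U) ≤ 4 * s * #U := by
  classical
  induction n with
  | zero =>
    intro U _ hU
    rw [card_eq_zero] at hU
    subst hU
    simp
  | succ n ih =>
    intro U hUA hU
    have hne : U.Nonempty := card_pos.1 (by omega)
    obtain ⟨x, hx, hlab⟩ := graph_claim hprime hP hg herr hs hs1 hbig hUA hne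
    have hcard : #(U.erase x) = n := by rw [card_erase_of_mem hx]; omega
    have h1 := ih (U.erase x) ((erase_subset x U).trans hUA) hcard
    have h2 : ∀ p ∈ P, #((X p).filter fun a => a ∈ U ∧ f p a ∈ U) ≤
        #((X p).filter fun a => a ∈ U.erase x ∧ f p a ∈ U.erase x) +
          (if p ∈ graphLab P X f U x then 2 else 0) := by
      intro p hp
      have hsub : ((X p).filter fun a => a ∈ U ∧ f p a ∈ U) ⊆
          ((X p).filter fun a => a ∈ U.erase x ∧ f p a ∈ U.erase x) ∪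
          ((X p).filter fun a => (a ∈ U ∧ f p a ∈ U) ∧ (a = x ∨ f p a = x)) := by
        intro a ha
        rw [mem_filter] at ha
        rw [mem_union, mem_filter, mem_filter]
        by_cases hc : a = x ∨ f p a = x
        · exact Or.inr ⟨ha.1, ha.2, hc⟩
        · push Not at hc
          exact Or.inl ⟨ha.1, mem_erase.2 ⟨hc.1, ha.2.1⟩, mem_erase.2 ⟨hc.2, ha.2.2⟩⟩
      refine (card_le_card hsub).trans ((card_union_le _ _).trans (Nat.add_le_add_left ?_ _))
      split_ifs with hpl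
      · have hsub2 : ((X p).filter fun a => (a ∈ U ∧ f p a ∈ U) ∧ (a = x ∨ f p a = x)) ⊆
            {x} ∪ ((X p).filter fun a => f p a = x) := by
          intro a ha
          rw [mem_filter] at ha
          rw [mem_union, mem_singleton, mem_filter]
          rcases ha.2.2 with h | h
          · exact Or.inl h
          · exact Or.inr ⟨ha.1, h⟩
        have hone : #((X p).filter fun a => f p a = x) ≤ 1 := by
          rw [card_le_one]
          have key : ∀ a ∈ X p, ∀ b ∈ X p, f p a = x → f p b = x → ¬ a < b := by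
            intro a ha b hb hfa hfb hab
            have h3 := hsep p hp a ha b hb hab
            have h4 := herr p hp a ha
            have h5 := herr p hp b hb
            rw [hfa] at h4
            rw [hfb] at h5
            omega
          intro a ha b hb
          rw [mem_filter] at ha hb
          rcases lt_trichotomy a b with h | h | h
          · exact absurd h (key a ha.1 b hb.1 ha.2 hb.2)
          · exact h
          · exact absurd h (key b hb.1 a ha.1 hb.2 ha.2)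
        refine (card_le_card hsub2).trans ((card_union_le _ _).trans ?_)
        rw [card_singleton]
        omega
      · rw [Nat.le_zero, card_eq_zero, filter_eq_empty_iff]
        rintro a ha ⟨⟨haU, hfU⟩, h⟩
        apply hpl
        rw [graphLab, mem_filter]
        refine ⟨hp, ?_⟩
        rcases h with h | h
        · subst h
          exact Or.inl ⟨ha, hfU⟩
        · exact Or.inr ⟨a, ha, haU, h⟩
    have h3 := sum_le_sum h2
    rw [sum_add_distrib] at h3
    have h4 : ∑ p ∈ P, (if p ∈ graphLab P X f U x then 2 else 0) ≤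
        2 * #(graphLab P X f U x) := by
      rw [← sum_filter, sum_const, smul_eq_mul, mul_comm]
      apply Nat.mul_le_mul_left
      apply card_le_card
      intro p hp
      exact (mem_filter.1 hp).2
    rw [hcard] at h1
    rw [hU]
    have h5 : 4 * s * (n + 1) = 4 * s * n + 4 * s := by ring
    omega

/-- **Graph lemma.** If every point `x` of `X p ⊆ A` has a partner `f p x ∈ A` with
`p * f p x ≈ x`, for all primes `p` of `P`, then the sets `X p` overlap very little. -/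
theorem graph (A P : Finset ℕ) (X : ℕ → Finset ℕ) (f : ℕ → ℕ → ℕ) (P0 η g s : ℕ)
    (hprime : ∀ p ∈ P, p.Prime) (hP : ∀ p ∈ P, p ≤ P0) (hX : ∀ p ∈ P, X p ⊆ A)
    (hf : ∀ p ∈ P, ∀ x ∈ X p, f p x ∈ A) (hg : ∀ p ∈ P, ∀ x ∈ X p, g ≤ x)
    (herr : ∀ p ∈ P, ∀ x ∈ X p, p * f p x ≤ x + η ∧ x ≤ p * f p x + η)
    (hsep : ∀ p ∈ P, ∀ x ∈ X p, ∀ y ∈ X p, x < y → x + 2 * η < y)
    (hs : #A < 2 ^ s) (hbig : 8 * s * (η + 1) * P0 ^ (3 * s + 1) < g) :
    ∑ p ∈ P, #(X p) ≤ 4 * s * #A := by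
  classical
  rcases Nat.eq_zero_or_pos s with hs0 | hs1
  · subst hs0
    rw [pow_zero] at hs
    have hA : A = ∅ := card_eq_zero.1 (by omega)
    rw [sum_eq_zero]
    · exact Nat.zero_le _
    · intro p hp
      have := hX p hp
      rw [hA, subset_empty] at this
      rw [this, card_empty]
  · have h := graph_edges hprime hP hg herr hsep hs hs1 hbig #A A (Subset.refl A) rfl
    refine le_trans (le_of_eq ?_) h
    apply sum_congr rfl
    intro p hp
    congr 1
    rw [eq_comm, filter_eq_self]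
    intro x hx
    exact ⟨hX p hp hx, hf p hp x hx⟩

end Pool.Agent.DC3
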