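import Pool.Agent.Lib.DC3.PrimeStep
import Pool.Agent.Lib.DC3.Graph

/-!
# The main inequality
-/

set_option autoImplicit false

open Finset PowerSeries

namespace Pool.Agent.DC3

open Pool.Agent.DigitChanges

theorem main_ineq (b l N P0 m r s t g₀ J : ℕ) (P : Finset ℕ) (hb : 2 ≤ b) (hl : 1 ≤ l)
    (hP : ∀ p ∈ P, Adm b l p) (hpP : ∀ p ∈ P, p ≤ P0) (hm' : sc (Fs b l) (N + 1) ≤ m)
    (hr : Wb b l P0 m + 1 ≤ r) (hs : 6 * s ≤ 4 * (m + 3) ^ 4)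
    (hg : wb b l m r * (4 * (m + 3) ^ 4) ^ (2 * s) ≤ g₀)
    (hN : g₀ * (5 * (m + 2) ^ 2) ^ (J + 1) ≤ N) (ht : m < 2 ^ t)
    (hbig : 8 * t * ((m + 1) * r + 1) * P0 ^ (3 * t + 1) < g₀) :
    #P * (J * s) ≤ 8 * t * sc (Fs b l) (N + 1) := by
  classical
  have key : ∀ p ∈ P, ∃ (X : Finset ℕ) (f : ℕ → ℕ), X ⊆ Apos b l N ∧
      (∀ x ∈ X, f x ∈ Apos b l N) ∧ (∀ x ∈ X, g₀ ≤ x) ∧
      (∀ x ∈ X, p * f x ≤ x + (m + 1) * r ∧ x ≤ p * f x + (m + 1) * r) ∧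
      (∀ x ∈ X, ∀ y ∈ X, x < y → x + 2 * ((m + 1) * r) < y) ∧ J * s ≤ 2 * #X := by
    intro p hp
    exact prime_step b l N P0 m r s g₀ J p hb hl (hP p hp) (hpP p hp) hm' hr hs hg hN
  choose! X f hXA hfA hXg herr hsep hcard using key
  have hA : #(Apos b l N) ≤ sc (Fs b l) (N + 1) := by
    rw [card_Apos]
    exact sc_mono _ (Nat.le_succ N)
  have hgr := graph (Apos b l N) P X f P0 ((m + 1) * r) g₀ t
    (fun p hp => (hP p hp).1) hpP hXA hfA hXg herr hsep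
    (lt_of_le_of_lt (hA.trans hm') ht) hbig
  calc #P * (J * s) = ∑ _p ∈ P, J * s := by rw [sum_const, smul_eq_mul]
    _ ≤ ∑ p ∈ P, 2 * #(X p) := sum_le_sum hcard
    _ = 2 * ∑ p ∈ P, #(X p) := by rw [mul_sum]
    _ ≤ 2 * (4 * t * #(Apos b l N)) := Nat.mul_le_mul_left 2 hgr
    _ ≤ 2 * (4 * t * sc (Fs b l) (N + 1)) :=
        Nat.mul_le_mul_left 2 (Nat.mul_le_mul_left (4 * t) hA)
    _ = 8 * t * sc (Fs b l) (N + 1) := by ring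

end Pool.Agent.DC3
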