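import Pool.Agent.Lib.DC3.Basic

/-!
# The prefix sums are not almost constant at any scale
-/

set_option autoImplicit false

open Finset

namespace Pool.Agent.DC3

variable {k : Type*} [Field k] [DecidableEq k]

/-- a map which is at most `c`-to-one: the preimage is small -/
private theorem Nonconst_inj (S B : Finset ℕ) (f : ℕ → ℕ) (hf : Set.InjOn f S)
    (hB : ∀ t ∈ S, f t ∈ B) : #S ≤ #B :=
  Finset.card_le_card_of_injOn f hB hf

/-- If `D` is not a square then no value `σ` is taken by the prefix sums at almost all points of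
`[T, 4 T)`. -/
theorem nonconst {N w m : ℕ} {D : k} (Y : Sys k N w m D) (hD : ∀ x : k, x ^ 2 ≠ D) (T : ℕ)
    (hT : 4 * T ≤ N) (σ : k) :
    2 * T ≤ w + (m + 2) * #{t ∈ Ico T (4 * T) | Sv Y.V Y.μ t ≠ σ} := by
  classical
  set B : Finset ℕ := {t ∈ Ico T (4 * T) | Sv Y.V Y.μ t ≠ σ} with hBdef
  by_contra hcon
  push Not at hcon
  -- the bad sets
  let Z1 : Finset ℕ := Y.Z
  let Z2 : Finset ℕ := Y.V.biUnion fun a => {t ∈ Ico (2 * T) (4 * T) | a ≤ t / 2 ∧ t - a ∈ B}
  let Z3 : Finset ℕ := {t ∈ Ico (2 * T) (4 * T) | t / 2 ∈ B}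
  have h2 : #Z2 ≤ m * #B := by
    calc #Z2 ≤ ∑ a ∈ Y.V, #{t ∈ Ico (2 * T) (4 * T) | a ≤ t / 2 ∧ t - a ∈ B} :=
          Finset.card_biUnion_le
      _ ≤ ∑ a ∈ Y.V, #B := by
          refine Finset.sum_le_sum fun a _ => ?_
          refine Nonconst_inj _ _ (fun t => t - a) ?_ ?_
          · intro x hx y hy hxy
            simp only [Finset.coe_filter, Set.mem_setOf_eq, Finset.mem_Ico] at hx hy
            simp only at hxy
            omega
          · intro t ht
            exact (Finset.mem_filter.1 ht).2.2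
      _ = #Y.V * #B := by rw [Finset.sum_const, smul_eq_mul]
      _ ≤ m * #B := Nat.mul_le_mul_right _ Y.cardV
  have h3 : #Z3 ≤ 2 * #B := by
    have hsub : Z3 ⊆ (B.image fun x => 2 * x) ∪ (B.image fun x => 2 * x + 1) := by
      intro t ht
      have ht' := (Finset.mem_filter.1 ht).2
      rw [Finset.mem_union, Finset.mem_image, Finset.mem_image]
      have h4 := Nat.div_add_mod t 2
      have h5 := Nat.mod_lt t (by norm_num : 0 < 2)
      by_cases h6 : t % 2 = 0
      · left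
        exact ⟨t / 2, ht', by omega⟩
      · right
        exact ⟨t / 2, ht', by omega⟩
    calc #Z3 ≤ _ := Finset.card_le_card hsub
      _ ≤ _ := Finset.card_union_le _ _
      _ ≤ #B + #B := Nat.add_le_add Finset.card_image_le Finset.card_image_le
      _ = 2 * #B := by ring
  have hex : ∃ t ∈ Ico (2 * T) (4 * T), t ∉ Z1 ∪ (Z2 ∪ Z3) := by
    by_contra h
    push Not at h
    have hsub : Ico (2 * T) (4 * T) ⊆ Z1 ∪ (Z2 ∪ Z3) := fun t ht => h t ht
    have h4 := Finset.card_le_card hsub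
    rw [Nat.card_Ico] at h4
    have h5 := Finset.card_union_le Z1 (Z2 ∪ Z3)
    have h6 := Finset.card_union_le Z2 Z3
    have h7 : #Z1 ≤ w := Y.cardZ
    have h8 : (m + 2) * #B = m * #B + 2 * #B := by ring
    omega
  obtain ⟨t, ht, hnot⟩ := hex
  rw [Finset.mem_union, Finset.mem_union] at hnot
  push Not at hnot
  obtain ⟨hn1, hn2, hn3⟩ := hnot
  have htI := Finset.mem_Ico.1 ht
  have hrel := Y.rel t (by omega) hn1
  rw [Cv_half] at hrel
  have hhalf : Sv Y.V Y.μ (t / 2) = σ := by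
    by_contra h
    apply hn3
    refine Finset.mem_filter.2 ⟨ht, Finset.mem_filter.2 ⟨Finset.mem_Ico.2 ⟨by omega, by omega⟩, h⟩⟩
  have hsum : ∑ a ∈ Y.V with a ≤ t / 2, Y.μ a * Sv Y.V Y.μ (t - a) = σ * σ := by
    have h9 : ∑ a ∈ Y.V with a ≤ t / 2, Y.μ a * Sv Y.V Y.μ (t - a) =
        ∑ a ∈ Y.V with a ≤ t / 2, Y.μ a * σ := by
      refine Finset.sum_congr rfl fun a ha => ?_
      obtain ⟨haV, hat⟩ := Finset.mem_filter.1 ha
      congr 1
      by_contra h
      apply hn2
      refine Finset.mem_biUnion.2 ⟨a, haV, Finset.mem_filter.2 ⟨ht, hat,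
        Finset.mem_filter.2 ⟨Finset.mem_Ico.2 ⟨by omega, by omega⟩, h⟩⟩⟩
    rw [h9, ← Finset.sum_mul]
    congr 1
  rw [hsum, hhalf] at hrel
  apply hD σ
  rw [← hrel]
  ring

end Pool.Agent.DC3
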