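import Pool.Agent.Lib.DC3.Basic
import Pool.Agent.Lib.DigitChanges.Core

/-!
# The measure of an admissible prime
-/

set_option autoImplicit false

open Finset PowerSeries

namespace Pool.Agent.DC3

open Pool.Agent.DigitChanges

/-- positions of the nonzero coefficients of `F` below `N` -/
noncomputable def Apos (b l N : ℕ) : Finset ℕ := {R ∈ range N | coeff R (Fs b l) ≠ 0}

theorem card_Apos (b l N : ℕ) : #(Apos b l N) = sc (Fs b l) N := rfl

theorem adm_nonsquare (b l p : ℕ) [Fact p.Prime] (hp : Adm b l p) (x : ZMod p) :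
    x ^ 2 ≠ ((2 * ((b : ℤ) ^ l - 1) ^ 2 : ℤ) : ZMod p) := by
  obtain ⟨hprime, hp3, hpb, hDm⟩ := hp
  intro hx
  rw [← hx, ← pow_mul] at hDm
  have hodd : 2 * ((p - 1) / 2) = p - 1 := by
    have h2 := hprime.eq_two_or_odd
    omega
  rw [hodd] at hDm
  have h2 : (2 : ZMod p) ≠ 0 := by
    intro h
    have h3 : ((2 : ℕ) : ZMod p) = 0 := by exact_mod_cast h
    rw [ZMod.natCast_eq_zero_iff] at h3
    have := Nat.le_of_dvd (by norm_num) h3
    omega
  by_cases h0 : x = 0
  · rw [h0, zero_pow (by omega)] at hDm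
    have : (0 : ZMod p) ≠ -1 := by simp
    exact this hDm
  · rw [ZMod.pow_card_sub_one_eq_one h0] at hDm
    apply h2
    linear_combination hDm

private theorem primeSys_b (b p : ℕ) [Fact p.Prime] (hpb : ¬ p ∣ b) :
    (((b : ℤ) : ZMod p)) ≠ 0 := by
  rw [Int.cast_natCast, Ne, ZMod.natCast_eq_zero_iff]
  exact hpb

/-- the weights -/
private noncomputable def primeSys_mu (b l p : ℕ) (a : ℕ) : ZMod p :=
  ((((b : ℤ) : ZMod p)) ^ a)⁻¹ * ((coeff a (Fs b l) : ℤ) : ZMod p)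

private theorem primeSys_gam (b l p : ℕ) [Fact p.Prime] (hpb : ¬ p ∣ b) (n : ℕ) :
    ∑ a ∈ range (n + 1), primeSys_mu b l p a = gam p b (Gs b l) n := by
  have hb := primeSys_b b p hpb
  induction n with
  | zero =>
    rw [sum_range_one]
    unfold primeSys_mu gam Fs
    rw [coeff_K_mul_zero]
  | succ n ih =>
    rw [sum_range_succ, ih]
    unfold primeSys_mu gam Fs
    rw [coeff_K_mul_succ]
    have hb1 : ((((b : ℤ) : ZMod p)) ^ n) ≠ 0 := pow_ne_zero _ hb
    push_cast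
    rw [Int.cast_natCast] at hb hb1
    rw [pow_succ]
    field_simp
    ring

private theorem primeSys_sum (b l N p : ℕ) (n : ℕ) (hn : n < N) (f : ℕ → ZMod p) :
    ∑ a ∈ range N with ((coeff a (Fs b l) : ℤ) : ZMod p) ≠ 0 ∧ a ≤ n,
      primeSys_mu b l p a * f a =
    ∑ a ∈ range (n + 1), primeSys_mu b l p a * f a := by
  apply sum_subset_zero_on_sdiff
  · intro a ha
    simp only [mem_filter, mem_range] at ha ⊢
    omega
  · intro a ha
    simp only [mem_sdiff, mem_filter, mem_range] at ha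
    obtain ⟨h1, h2⟩ := ha
    have h3 : ((coeff a (Fs b l) : ℤ) : ZMod p) = 0 := by
      by_contra h
      exact h2 ⟨by omega, h, by omega⟩
    unfold primeSys_mu
    rw [h3, mul_zero, zero_mul]
  · intro a _
    rfl

/-- The measure `F_a b^{-a}` modulo `p` on `[0, N)`. -/
theorem prime_sys (b l N m p : ℕ) (hb : 2 ≤ b) (hl : 1 ≤ l) [Fact p.Prime] (hp : Adm b l p)
    (hm : sc (Fs b l) N ≤ m) (hm' : sc (Fs b l) (N + 1) ≤ m) :
    ∃ Y : Sys (ZMod p) N (36 * b ^ (2 * l + 2) * m ^ 2) m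
        ((2 * ((b : ℤ) ^ l - 1) ^ 2 : ℤ) : ZMod p),
      Y.V ⊆ Apos b l N ∧ ∀ n < N, Sv Y.V Y.μ n = gam p b (Gs b l) n := by
  obtain ⟨hprime, hp3, hpb, hDm⟩ := hp
  have hb0 := primeSys_b b p hpb
  set V : Finset ℕ := {a ∈ range N | ((coeff a (Fs b l) : ℤ) : ZMod p) ≠ 0} with hV
  have hVsub : V ⊆ Apos b l N := by
    intro a ha
    rw [hV, mem_filter] at ha
    unfold Apos
    rw [mem_filter]
    refine ⟨ha.1, fun h => ha.2 ?_⟩
    rw [h, Int.cast_zero]
  have hSv : ∀ n < N, Sv V (primeSys_mu b l p) n = gam p b (Gs b l) n := by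
    intro n hn
    rw [← primeSys_gam b l p hpb n]
    have h := primeSys_sum b l N p n hn (fun _ => 1)
    simp only [mul_one] at h
    rw [← h]
    unfold Sv
    rw [hV, filter_filter]
  refine ⟨⟨V, primeSys_mu b l p, {t ∈ range N | coeff t (Ts b l) ≠ 0}, ?_, ?_, ?_, ?_⟩,
    hVsub, hSv⟩
  · intro a ha
    rw [hV, mem_filter] at ha
    exact mul_ne_zero (inv_ne_zero (pow_ne_zero _ hb0)) ha.2
  · exact (card_le_card hVsub).trans ((card_Apos b l N).le.trans hm)
  · refine (sc_Ts b l N hb hl).trans ?_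
    exact Nat.mul_le_mul_left _ (Nat.pow_le_pow_left hm' 2)
  · intro t ht htZ
    have hT : coeff t (Ts b l) = 0 := by
      by_contra h
      exact htZ (mem_filter.2 ⟨mem_range.2 ht, h⟩)
    rw [Cv_eq]
    have h1 : ∑ a ∈ V with a ≤ t, primeSys_mu b l p a * Sv V (primeSys_mu b l p) (t - a) =
        ∑ a ∈ range (t + 1), primeSys_mu b l p a * gam p b (Gs b l) (t - a) := by
      rw [← primeSys_sum b l N p t ht (fun a => gam p b (Gs b l) (t - a)), hV, filter_filter]
      refine sum_congr rfl fun a ha => ?_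
      rw [mem_filter, mem_range] at ha
      rw [← hV, hSv (t - a) (by omega)]
    rw [h1]
    have h2 : ∀ a ∈ range (t + 1), primeSys_mu b l p a * gam p b (Gs b l) (t - a) =
        ((((b : ℤ) : ZMod p)) ^ t)⁻¹ *
          ((coeff a (Fs b l) * coeff (t - a) (Gs b l) : ℤ) : ZMod p) := by
      intro a ha
      rw [mem_range] at ha
      unfold primeSys_mu gam
      have h3 : (((b : ℤ) : ZMod p)) ^ t = ((b : ℤ) : ZMod p) ^ a * ((b : ℤ) : ZMod p) ^ (t - a) := by
        rw [← pow_add]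
        congr 1
        omega
      rw [h3, mul_inv, Int.cast_mul]
      ring
    rw [sum_congr rfl h2, ← mul_sum, ← Int.cast_sum]
    have h4 : ∑ a ∈ range (t + 1), coeff a (Fs b l) * coeff (t - a) (Gs b l) =
        2 * ((b : ℤ) ^ l - 1) ^ 2 * (b : ℤ) ^ t := by
      have h5 : coeff t (Fs b l * Gs b l) =
          ∑ a ∈ range (t + 1), coeff a (Fs b l) * coeff (t - a) (Gs b l) := by
        rw [coeff_mul, Finset.Nat.sum_antidiagonal_eq_sum_range_succ
          (fun i j => coeff i (Fs b l) * coeff j (Gs b l))]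
      rw [← h5]
      unfold Ts at hT
      rw [map_sub, coeff_C_mul, coeff_E] at hT
      linarith
    rw [h4, Int.cast_mul, Int.cast_pow]
    field_simp

/-- the dilation relation, with a small exceptional set -/
theorem dilation (b l N P0 m p : ℕ) (hb : 2 ≤ b) (hl : 1 ≤ l) [Fact p.Prime] (hp : Adm b l p)
    (hN : 1 ≤ N) (hpP : p ≤ P0) (hm' : sc (Fs b l) (N + 1) ≤ m) :
    ∃ E : Finset ℕ, #E ≤ P0 * (36 * b ^ (2 * l + 2) * m ^ 2) * m ^ P0 ∧
      ∀ n < N, n ∉ E → gam p b (Gs b l) n = -gam p b (Gs b l) (n / p) := by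
  obtain ⟨hprime, hp3, hpb, hDm⟩ := hp
  set F := Fs b l with hF
  set G := Gs b l with hG
  set T := Ts b l with hT
  set D : ℤ := 2 * ((b : ℤ) ^ l - 1) ^ 2 with hD
  set q := (p - 1) / 2 with hq
  have hodd : p = 2 * q + 1 := by
    have h2 := hprime.eq_two_or_odd
    omega
  have hq1 : 1 ≤ q := by omega
  have hbp : ((b : ℤ) : ZMod p) ≠ 0 := primeSys_b b p hpb
  have hF1 : 1 ≤ sc F N := by
    unfold sc
    rw [Nat.one_le_iff_ne_zero, card_ne_zero]
    refine ⟨0, ?_⟩
    simp only [mem_filter, mem_range]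
    refine ⟨by omega, ?_⟩
    rw [hF, coeff_zero_Fs b l hl]
    positivity
  have hFM : sc F N ≤ m := (sc_mono F (Nat.le_succ N)).trans hm'
  have hm1 : 1 ≤ m := le_trans hF1 hFM
  refine ⟨{R ∈ range N | coeff R (Vs D T F q) ≠ 0}, ?_, ?_⟩
  · have h1 : #({R ∈ range N | coeff R (Vs D T F q) ≠ 0} : Finset ℕ) = sc (Vs D T F q) N := rfl
    rw [h1]
    refine (sc_Vs D T F q N hq1 hF1).trans ?_
    have hTN : sc T N ≤ 36 * b ^ (2 * l + 2) * m ^ 2 :=
      (sc_Ts b l N hb hl).trans (Nat.mul_le_mul_left _ (Nat.pow_le_pow_left hm' 2))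
    have h2 : sc F N ^ (2 * q - 1) ≤ m ^ P0 := by
      refine (Nat.pow_le_pow_left hFM _).trans (Nat.pow_le_pow_right hm1 (by omega))
    calc q * (sc T N * sc F N ^ (2 * q - 1)) ≤
        P0 * (36 * b ^ (2 * l + 2) * m ^ 2 * m ^ P0) :=
          Nat.mul_le_mul (by omega) (Nat.mul_le_mul hTN h2)
      _ = P0 * (36 * b ^ (2 * l + 2) * m ^ 2) * m ^ P0 := by ring
  · intro n hn hnE
    apply gam_eq p b D T F G q hodd hbp hDm rfl rfl
    by_contra hne
    apply hnE
    rw [mem_filter, mem_range]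
    exact ⟨hn, hne⟩

end Pool.Agent.DC3
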