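import Pool.Agent.Lib.DC3.PropA
import Pool.Agent.Lib.DC3.PrimeSys

/-!
# The visible points of one admissible prime
-/

set_option autoImplicit false

open Finset PowerSeries

namespace Pool.Agent.DC3

open Pool.Agent.DigitChanges

/-- bound for the number of exceptional positions of the dilation relation -/
def Wb (b l P0 m : ℕ) : ℕ := P0 * (36 * b ^ (2 * l + 2) * m ^ 2) * m ^ P0

/-- bound for the number of exceptional positions after merging twice -/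
def wb (b l m r : ℕ) : ℕ :=
  36 * b ^ (2 * l + 2) * m ^ 2 + 2 * m ^ 3 * r + 2 * m ^ 3 * (2 * ((m + 1) * r))

private theorem primeStep_free (E : Finset ℕ) (c r : ℕ) (h : #E < r) :
    ∃ n, c ≤ n ∧ n < c + r ∧ n ∉ E := by
  by_contra hcon
  push Not at hcon
  have h1 : Ico c (c + r) ⊆ E := by
    intro n hn
    rw [mem_Ico] at hn
    exact hcon n hn.1 hn.2
  have h2 := card_le_card h1
  rw [Nat.card_Ico] at h2
  omega

private theorem primeStep_sum (V : Finset ℕ) (s g₀ K : ℕ) (hK : 1 ≤ K) (J : ℕ)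
    (h : ∀ j < J, s ≤ 2 * #{v ∈ V | g₀ * K ^ j ≤ v ∧ v < g₀ * K ^ (j + 1)}) :
    J * s ≤ 2 * #{v ∈ V | g₀ ≤ v ∧ v < g₀ * K ^ J} := by
  induction J with
  | zero => simp
  | succ J ih =>
    have h1 := ih fun j hj => h j (by omega)
    have h2 := h J (by omega)
    have h3 : #{v ∈ V | g₀ ≤ v ∧ v < g₀ * K ^ J} +
        #{v ∈ V | g₀ * K ^ J ≤ v ∧ v < g₀ * K ^ (J + 1)} ≤
        #{v ∈ V | g₀ ≤ v ∧ v < g₀ * K ^ (J + 1)} := by
      rw [← card_union_of_disjoint]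
      · refine card_le_card ?_
        intro v hv
        have h4 : g₀ ≤ g₀ * K ^ J := Nat.le_mul_of_pos_right _ (Nat.pow_pos hK)
        have h5 : g₀ * K ^ J ≤ g₀ * K ^ (J + 1) :=
          Nat.mul_le_mul_left _ (Nat.pow_le_pow_right hK (Nat.le_succ J))
        rw [mem_union, mem_filter, mem_filter] at hv
        rw [mem_filter]
        rcases hv with ⟨h6, h7, h8⟩ | ⟨h6, h7, h8⟩
        · exact ⟨h6, h7, lt_of_lt_of_le h8 h5⟩
        · exact ⟨h6, h4.trans h7, h8⟩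
      · rw [disjoint_left]
        intro v hv hv'
        rw [mem_filter] at hv hv'
        omega
    rw [Nat.succ_mul]
    omega

theorem prime_step (b l N P0 m r s g₀ J p : ℕ) (hb : 2 ≤ b) (hl : 1 ≤ l) (hp : Adm b l p)
    (hpP : p ≤ P0) (hm' : sc (Fs b l) (N + 1) ≤ m) (hr : Wb b l P0 m + 1 ≤ r)
    (hs : 6 * s ≤ 4 * (m + 3) ^ 4) (hg : wb b l m r * (4 * (m + 3) ^ 4) ^ (2 * s) ≤ g₀)
    (hN : g₀ * (5 * (m + 2) ^ 2) ^ (J + 1) ≤ N) :
    ∃ (X : Finset ℕ) (f : ℕ → ℕ), X ⊆ Apos b l N ∧ (∀ x ∈ X, f x ∈ Apos b l N) ∧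
      (∀ x ∈ X, g₀ ≤ x) ∧
      (∀ x ∈ X, p * f x ≤ x + (m + 1) * r ∧ x ≤ p * f x + (m + 1) * r) ∧
      (∀ x ∈ X, ∀ y ∈ X, x < y → x + 2 * ((m + 1) * r) < y) ∧ J * s ≤ 2 * #X := by
  have hprime : Fact p.Prime := ⟨hp.1⟩
  have hp3 := hp.2.1
  have hm1 : 1 ≤ m := by
    refine le_trans ?_ hm'
    unfold sc
    rw [Nat.one_le_iff_ne_zero, card_ne_zero]
    refine ⟨0, ?_⟩
    simp only [mem_filter, mem_range]
    refine ⟨by omega, ?_⟩
    rw [coeff_zero_Fs b l hl]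
    positivity
  have hm : sc (Fs b l) N ≤ m := (sc_mono _ (Nat.le_succ N)).trans hm'
  have hr1 : 1 ≤ r := by omega
  set K : ℕ := 5 * (m + 2) ^ 2 with hKdef
  have hK5 : 5 ≤ K := by
    have : 1 ≤ (m + 2) ^ 2 := Nat.one_le_pow _ _ (by omega)
    omega
  have hpow1 : 1 ≤ (4 * (m + 3) ^ 4) ^ (2 * s) := by
    refine Nat.one_le_pow _ _ ?_
    have : 1 ≤ (m + 3) ^ 4 := Nat.one_le_pow _ _ (by omega)
    omega
  have hwg : wb b l m r ≤ g₀ := by
    refine le_trans ?_ hg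
    exact Nat.le_mul_of_pos_right _ hpow1
  have hmr : (m + 1) * r ≤ wb b l m r := by
    unfold wb
    have h1 : 1 ≤ m ^ 3 := Nat.one_le_pow _ _ hm1
    have h2 : 1 * ((m + 1) * r) ≤ m ^ 3 * ((m + 1) * r) := Nat.mul_le_mul_right _ h1
    have h3 : 2 * m ^ 3 * (2 * ((m + 1) * r)) = 4 * (m ^ 3 * ((m + 1) * r)) := by ring
    omega
  have hmr1 : 1 ≤ (m + 1) * r := Nat.mul_pos (by omega) hr1
  have hw1 : 1 ≤ wb b l m r := hmr1.trans hmr
  have hg1 : 1 ≤ g₀ := hw1.trans hwg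
  -- the powers
  have hKJ : ∀ j, g₀ ≤ g₀ * K ^ j := fun j =>
    Nat.le_mul_of_pos_right _ (Nat.pow_pos (by omega))
  have hKmono : ∀ i j, i ≤ j → g₀ * K ^ i ≤ g₀ * K ^ j := fun i j hij =>
    Nat.mul_le_mul_left _ (Nat.pow_le_pow_right (by omega) hij)
  have hN1 : g₀ * K ^ J + g₀ ≤ N := by
    refine le_trans ?_ hN
    have h1 : g₀ * K ^ (J + 1) = (g₀ * K ^ J) * K := by rw [pow_succ]; ring
    have h2 : (g₀ * K ^ J) * 2 ≤ (g₀ * K ^ J) * K := Nat.mul_le_mul_left _ (by omega)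
    have h3 := hKJ J
    omega
  have hNpos : 1 ≤ N := by
    have := hKJ J
    omega
  obtain ⟨Y0, hV0, hS0⟩ := prime_sys b l N m p hb hl hp hm hm'
  obtain ⟨Y1, hV1, -, hlink⟩ := clean Y0 r
  obtain ⟨Y2, hV2, hsep, -⟩ := clean Y1 (2 * ((m + 1) * r))
  obtain ⟨E, hE, hdil⟩ := dilation b l N P0 m p hb hl hp hNpos hpP hm'
  have hEr : #E < r := by
    have h1 : #E ≤ Wb b l P0 m := hE
    omega
  have h2 : (2 : ZMod p) ≠ 0 := by
    intro h
    have h3 : ((2 : ℕ) : ZMod p) = 0 := by exact_mod_cast h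
    rw [ZMod.natCast_eq_zero_iff] at h3
    have := Nat.le_of_dvd (by norm_num) h3
    omega
  have hbands : J * s ≤ 2 * #{v ∈ Y2.V | g₀ ≤ v ∧ v < g₀ * K ^ J} := by
    refine primeStep_sum Y2.V s g₀ K (by omega) J ?_
    intro j hj
    have h3 : 5 * ((m + 2) ^ 2 * (g₀ * K ^ j)) = g₀ * K ^ (j + 1) := by
      rw [pow_succ, hKdef]
      ring
    have h4 := propA Y2 h2 (adm_nonsquare b l p hp) (g₀ * K ^ j)
      ((m + 2) ^ 2 * (g₀ * K ^ j)) s hw1 hs (hg.trans (hKJ j)) le_rfl (by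
        rw [h3]
        exact (hKmono (j + 1) (J + 1) (by omega)).trans hN)
    rw [h3] at h4
    exact h4
  have key : ∀ v, ∃ a, v ∈ ({v ∈ Y2.V | g₀ ≤ v ∧ v < g₀ * K ^ J} : Finset ℕ) →
      a ∈ Apos b l N ∧ p * a ≤ v + (m + 1) * r ∧ v ≤ p * a + (m + 1) * r := by
    intro v
    by_cases hv : v ∈ ({v ∈ Y2.V | g₀ ≤ v ∧ v < g₀ * K ^ J} : Finset ℕ)
    · rw [mem_filter] at hv
      obtain ⟨hvV, hv1, hv2⟩ := hv
      obtain ⟨e, he1, he2, he3⟩ := hlink v (hV2 hvV)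
      have hexp : (m + 1) * r = m * r + r := by ring
      have hrv : r ≤ v := by
        have : r ≤ (m + 1) * r := Nat.le_mul_of_pos_left _ (by omega)
        omega
      obtain ⟨n₁, hn1, hn1', hn1E⟩ := primeStep_free E (v - r) r hEr
      obtain ⟨n₂, hn2, hn2', hn2E⟩ := primeStep_free E e r hEr
      have hlt1 : n₁ < v := by omega
      have hn2N : n₂ < N := by omega
      have hn1N : n₁ < N := by omega
      have hne := he3 n₁ n₂ hlt1 (by omega) hn2 (by omega)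
      rw [hS0 n₁ hn1N, hS0 n₂ hn2N, hdil n₁ hn1N hn1E, hdil n₂ hn2N hn2E] at hne
      have hne' : gam p b (Gs b l) (n₁ / p) ≠ gam p b (Gs b l) (n₂ / p) := fun h => hne (by rw [h])
      have hd1 : n₁ / p < N := (Nat.div_le_self _ _).trans_lt hn1N
      have hd2 : n₂ / p < N := (Nat.div_le_self _ _).trans_lt hn2N
      rw [← hS0 _ hd1, ← hS0 _ hd2] at hne'
      obtain ⟨a, ha, ha1, ha2⟩ := exists_jump Y0.V Y0.μ (n₁ / p) (n₂ / p)
        (Nat.div_le_div_right (by omega)) hne'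
      refine ⟨a, fun _ => ⟨hV0 ha, ?_, ?_⟩⟩
      · have h5 : p * a ≤ p * (n₂ / p) := Nat.mul_le_mul_left _ ha2
        have h6 := Nat.mul_div_le n₂ p
        omega
      · have h5 : n₁ < a * p := (Nat.div_lt_iff_lt_mul (by omega)).1 ha1
        have h6 : a * p = p * a := Nat.mul_comm _ _
        omega
    · exact ⟨0, fun h => absurd h hv⟩
  choose f hf using key
  refine ⟨{v ∈ Y2.V | g₀ ≤ v ∧ v < g₀ * K ^ J}, f, ?_, fun x hx => (hf x hx).1, ?_,
    fun x hx => (hf x hx).2, ?_, hbands⟩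
  · intro v hv
    exact hV0 (hV1 (hV2 (mem_filter.1 hv).1))
  · intro v hv
    exact (mem_filter.1 hv).2.1
  · intro x hx y hy hxy
    exact hsep x (mem_filter.1 hx).1 y (mem_filter.1 hy).1 hxy

end Pool.Agent.DC3
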