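import Pool.Agent.Lib.DC3.Defs

/-!
# Few points have few scales
-/

set_option autoImplicit false

open Finset

namespace Pool.Agent.DC3

private theorem sum_single_mul (U : Finset ℕ) {v : ℕ} (hv : v ∈ U) :
    ∑ x ∈ U, (if x = v then (1 : ℤ) else 0) * (x : ℤ) = v := by
  simp [Finset.sum_ite_eq', hv]

private theorem hit_coeff {U : Finset ℕ} {ρ K : ℕ} (h : Hit U ρ K) :
    ∃ c : ℕ → ℤ, (∀ u, |c u| ≤ 3) ∧ (ρ : ℤ) ≤ ∑ u ∈ U, c u * (u : ℤ) ∧
      ∑ u ∈ U, c u * (u : ℤ) ≤ (K : ℤ) * ρ := by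
  rcases h with ⟨u, hu, v, hv, h1, h2⟩ | ⟨u, hu, v, hv, z, hz, h1, h2⟩
  · refine ⟨fun x => (if x = v then 1 else 0) - (if x = u then 1 else 0), ?_, ?_⟩
    · intro x
      dsimp only
      split_ifs <;> norm_num
    · have hs : ∑ x ∈ U, ((if x = v then (1 : ℤ) else 0) - (if x = u then 1 else 0)) * (x : ℤ)
          = v - u := by
        simp only [sub_mul, Finset.sum_sub_distrib]
        rw [sum_single_mul U hv, sum_single_mul U hu]
      rw [hs]
      have h1' : (u : ℤ) + ρ ≤ v := by exact_mod_cast h1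
      have h2' : (v : ℤ) ≤ u + K * ρ := by exact_mod_cast h2
      constructor <;> linarith
  · refine ⟨fun x => (if x = u then 1 else 0) + (if x = v then 1 else 0) -
      (if x = z then 1 else 0), ?_, ?_⟩
    · intro x
      dsimp only
      split_ifs <;> norm_num
    · have hs : ∑ x ∈ U, ((if x = u then (1 : ℤ) else 0) + (if x = v then 1 else 0) -
          (if x = z then 1 else 0)) * (x : ℤ) = u + v - z := by
        simp only [sub_mul, add_mul, Finset.sum_sub_distrib, Finset.sum_add_distrib]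
        rw [sum_single_mul U hv, sum_single_mul U hu, sum_single_mul U hz]
      rw [hs]
      have h1' : (z : ℤ) + ρ ≤ u + v := by exact_mod_cast h1
      have h2' : (u : ℤ) + v ≤ z + K * ρ := by exact_mod_cast h2
      constructor <;> linarith

/-- If small combinations of the points of `U` meet `s` separated windows then `s ≤ 2 #U`. -/
theorem scales (U : Finset ℕ) (K s : ℕ) (ρ : ℕ → ℕ) (hK3 : 3 ≤ K) (hK : 6 * s ≤ K)
    (hρ : ∀ i < s, 1 ≤ ρ i) (hstep : ∀ i, i + 1 < s → K ^ 2 * ρ i ≤ ρ (i + 1))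
    (hit : ∀ i < s, Hit U (ρ i) K) : s ≤ 2 * #U := by
  classical
  have hc : ∀ i, ∃ c : ℕ → ℤ, i < s → (∀ u, |c u| ≤ 3) ∧ (ρ i : ℤ) ≤ ∑ u ∈ U, c u * (u : ℤ) ∧
      ∑ u ∈ U, c u * (u : ℤ) ≤ (K : ℤ) * ρ i := by
    intro i
    by_cases hi : i < s
    · obtain ⟨c, hc⟩ := hit_coeff (hit i hi)
      exact ⟨c, fun _ => hc⟩
    · exact ⟨0, fun h => absurd h hi⟩
  choose c hc using hc
  set d : ℕ → ℤ := fun i => ∑ u ∈ U, c i u * (u : ℤ) with hd
  have hd1 : ∀ i < s, (ρ i : ℤ) ≤ d i := fun i hi => (hc i hi).2.1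
  have hd2 : ∀ i < s, d i ≤ (K : ℤ) * ρ i := fun i hi => (hc i hi).2.2
  have hdpos : ∀ i < s, 0 < d i := fun i hi => by
    have h1 : (1 : ℤ) ≤ ρ i := by exact_mod_cast hρ i hi
    exact lt_of_lt_of_le zero_lt_one (h1.trans (hd1 i hi))
  have hKz : (3 : ℤ) ≤ K := by exact_mod_cast hK3
  -- growth
  have hg : ∀ i, i < s → ((K : ℤ) - 1) * ∑ j ∈ range i, d j < d i := by
    intro i
    induction i with
    | zero => intro hi; simpa using hdpos 0 hi
    | succ i ih =>
      intro hi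
      have hi' : i < s := by omega
      have h1 := ih hi'
      have h2 : (K : ℤ) * d i ≤ d (i + 1) := by
        have h3 : ((K ^ 2 * ρ i : ℕ) : ℤ) ≤ (ρ (i + 1) : ℕ) := by exact_mod_cast hstep i hi
        push_cast at h3
        have h4 : (K : ℤ) * d i ≤ K * (K * ρ i) :=
          mul_le_mul_of_nonneg_left (hd2 i hi') (by linarith)
        have h5 := hd1 (i + 1) hi
        nlinarith
      rw [Finset.sum_range_succ, mul_add]
      linarith
  -- independence
  have hind : ∀ e : ℕ → ℤ, (∀ j, |e j| ≤ (K : ℤ) - 2) → ∀ m, m ≤ s →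
      ∑ j ∈ range m, e j * d j = 0 → ∀ j < m, e j = 0 := by
    intro e he m
    induction m with
    | zero => intro _ _ j hj; omega
    | succ m ih =>
      intro hm hsum
      have hm' : m < s := by omega
      rw [Finset.sum_range_succ] at hsum
      have hb : |∑ j ∈ range m, e j * d j| ≤ ((K : ℤ) - 2) * ∑ j ∈ range m, d j := by
        refine (Finset.abs_sum_le_sum_abs _ _).trans ?_
        rw [Finset.mul_sum]
        refine Finset.sum_le_sum fun j hj => ?_
        have hj' : j < s := (Finset.mem_range.1 hj).trans hm'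
        rw [abs_mul, abs_of_pos (hdpos j hj')]
        exact mul_le_mul_of_nonneg_right (he j) (hdpos j hj').le
      have hs0 : 0 ≤ ∑ j ∈ range m, d j := Finset.sum_nonneg fun j hj =>
        (hdpos j ((Finset.mem_range.1 hj).trans hm')).le
      have hlt := hg m hm'
      have hem : e m = 0 := by
        by_contra hne
        have h1 : 1 ≤ |e m| := Int.one_le_abs hne
        have h2 : d m ≤ |e m * d m| := by
          rw [abs_mul, abs_of_pos (hdpos m hm')]
          nlinarith [hdpos m hm']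
        have h3 : e m * d m = -∑ j ∈ range m, e j * d j := by linarith
        rw [h3, abs_neg] at h2
        nlinarith
      have hsum' : ∑ j ∈ range m, e j * d j = 0 := by
        rw [hem] at hsum
        simpa using hsum
      intro j hj
      rcases Nat.lt_succ_iff_lt_or_eq.1 hj with h | h
      · exact ih hm'.le hsum' j h
      · rw [h]; exact hem
  -- counting
  set M : ℕ := 3 * ((K - 2) * s) with hM
  let F : (Fin s → Fin (K - 1)) → (U → ℤ) := fun n u => ∑ i : Fin s, ((n i : ℕ) : ℤ) * c i u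
  have hFmem : ∀ n ∈ (Finset.univ : Finset (Fin s → Fin (K - 1))),
      F n ∈ Fintype.piFinset (fun _ : U => Finset.Icc (-(M : ℤ)) M) := by
    intro n _
    rw [Fintype.mem_piFinset]
    intro u
    rw [Finset.mem_Icc, ← abs_le]
    have h1 : |F n u| ≤ ∑ i : Fin s, ((K - 2 : ℕ) : ℤ) * 3 := by
      refine (Finset.abs_sum_le_sum_abs _ _).trans ?_
      refine Finset.sum_le_sum fun i _ => ?_
      rw [abs_mul]
      have h2 : |((n i : ℕ) : ℤ)| ≤ ((K - 2 : ℕ) : ℤ) := by
        rw [abs_of_nonneg (Int.natCast_nonneg _)]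
        have := (n i).2
        exact_mod_cast (by omega : (n i : ℕ) ≤ K - 2)
      exact mul_le_mul h2 ((hc i i.2).1 u) (abs_nonneg _) (Int.natCast_nonneg _)
    refine h1.trans ?_
    rw [Finset.sum_const, Finset.card_univ, Fintype.card_fin, hM, nsmul_eq_mul]
    push_cast
    nlinarith
  have hFinj : Set.InjOn F (Finset.univ : Finset (Fin s → Fin (K - 1))) := by
    intro n _ n' _ hnn
    let e : ℕ → ℤ := fun j => if h : j < s then ((n ⟨j, h⟩ : ℕ) : ℤ) - ((n' ⟨j, h⟩ : ℕ) : ℤ) else 0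
    have he : ∀ j, |e j| ≤ (K : ℤ) - 2 := by
      intro j
      show |(if h : j < s then ((n ⟨j, h⟩ : ℕ) : ℤ) - ((n' ⟨j, h⟩ : ℕ) : ℤ) else 0)| ≤ _
      split_ifs with h
      · have h1 := (n ⟨j, h⟩).2
        have h2 := (n' ⟨j, h⟩).2
        rw [abs_le]
        constructor <;> omega
      · simp; linarith
    have hz : ∑ j ∈ range s, e j * d j = 0 := by
      rw [← Fin.sum_univ_eq_sum_range (fun j => e j * d j) s]
      have h1 : ∀ i : Fin s, e i * d i = ∑ u ∈ U, (((n i : ℕ) : ℤ) * c i u - ((n' i : ℕ) : ℤ) * c i u) * (u : ℤ) := by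
        intro i
        have h2 : e i = ((n i : ℕ) : ℤ) - ((n' i : ℕ) : ℤ) := by
          show (if h : (i : ℕ) < s then ((n ⟨i, h⟩ : ℕ) : ℤ) - ((n' ⟨i, h⟩ : ℕ) : ℤ) else 0) = _
          rw [dif_pos i.2]
        rw [h2, hd]
        simp only
        rw [Finset.mul_sum]
        refine Finset.sum_congr rfl fun u _ => ?_
        ring
      rw [Finset.sum_congr rfl fun i _ => h1 i, Finset.sum_comm]
      refine Finset.sum_eq_zero fun u hu => ?_
      rw [← Finset.sum_mul, Finset.sum_sub_distrib]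
      have h3 := congrFun hnn ⟨u, hu⟩
      have h4 : ∑ i : Fin s, ((n i : ℕ) : ℤ) * c i u = ∑ i : Fin s, ((n' i : ℕ) : ℤ) * c i u := h3
      rw [h4, sub_self, zero_mul]
    have hall := hind e he s le_rfl hz
    funext i
    have h5 := hall i i.2
    have h6 : e i = ((n i : ℕ) : ℤ) - ((n' i : ℕ) : ℤ) := by
      show (if h : (i : ℕ) < s then ((n ⟨i, h⟩ : ℕ) : ℤ) - ((n' ⟨i, h⟩ : ℕ) : ℤ) else 0) = _
      rw [dif_pos i.2]
    rw [h6] at h5
    exact Fin.ext (by omega)
  have hcard := Finset.card_le_card_of_injOn F hFmem hFinj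
  rw [Finset.card_univ, Fintype.card_fun, Fintype.card_fin, Fintype.card_fin,
    Fintype.card_piFinset, Finset.prod_const, Int.card_Icc, Finset.card_univ,
    Fintype.card_coe] at hcard
  have hbase : ((M : ℤ) + 1 - -(M : ℤ)).toNat ≤ (K - 1) ^ 2 := by
    obtain ⟨k, rfl⟩ : ∃ k, K = k + 2 := ⟨K - 2, by omega⟩
    have h1 : ((M : ℤ) + 1 - -(M : ℤ)).toNat = 2 * M + 1 := by omega
    rw [h1, hM]
    have h2 : k + 2 - 2 = k := by omega
    have h3 : k + 2 - 1 = k + 1 := by omega
    rw [h2, h3]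
    nlinarith
  have hfin : (K - 1) ^ s ≤ (K - 1) ^ (2 * #U) := by
    calc (K - 1) ^ s ≤ (((M : ℤ) + 1 - -(M : ℤ)).toNat) ^ #U := hcard
      _ ≤ ((K - 1) ^ 2) ^ #U := Nat.pow_le_pow_left hbase _
      _ = (K - 1) ^ (2 * #U) := by rw [← pow_mul]
  exact (Nat.pow_le_pow_iff_right (by omega)).1 hfin

end Pool.Agent.DC3
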