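import Pool.Agent.Lib.DC3.Window
import Pool.Agent.Lib.DC3.Scales

/-!
# Many points in each range `[g, 5 T)`
-/

set_option autoImplicit false

open Finset

namespace Pool.Agent.DC3

variable {k : Type*} [Field k]

theorem propA {N w m : ℕ} {D : k} (Y : Sys k N w m D) (h2 : (2 : k) ≠ 0)
    (hD : ∀ x : k, x ^ 2 ≠ D) (g T s : ℕ) (hw : 1 ≤ w) (hs : 6 * s ≤ 4 * (m + 3) ^ 4)
    (hg : w * (4 * (m + 3) ^ 4) ^ (2 * s) ≤ g) (hT : (m + 2) ^ 2 * g ≤ T) (hN : 5 * T ≤ N) :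
    s ≤ 2 * #{v ∈ Y.V | g ≤ v ∧ v < 5 * T} := by
  have h4 : 1 ≤ (m + 3) ^ 4 := Nat.one_le_pow _ _ (by omega)
  have hK1 : 1 ≤ 4 * (m + 3) ^ 4 := by omega
  refine scales _ (4 * (m + 3) ^ 4) s (fun i => w * (4 * (m + 3) ^ 4) ^ (2 * i)) (by omega) hs
    ?_ ?_ ?_
  · intro i _
    exact Nat.mul_pos hw (Nat.pow_pos hK1)
  · intro i _
    have e : 2 * (i + 1) = 2 * i + 2 := by ring
    show (4 * (m + 3) ^ 4) ^ 2 * (w * (4 * (m + 3) ^ 4) ^ (2 * i)) ≤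
      w * (4 * (m + 3) ^ 4) ^ (2 * (i + 1))
    rw [e, pow_add]
    exact le_of_eq (by ring)
  · intro i hi
    have hp : 1 ≤ (4 * (m + 3) ^ 4) ^ (2 * i) := Nat.one_le_pow _ _ hK1
    refine window Y h2 hD g T _ (Nat.mul_pos hw hp) (Nat.le_mul_of_pos_right _ hp) ?_ hT hN
    calc 4 * (m + 3) ^ 4 * (w * (4 * (m + 3) ^ 4) ^ (2 * i))
        = w * (4 * (m + 3) ^ 4) ^ (2 * i + 1) := by rw [pow_succ]; ring
      _ ≤ w * (4 * (m + 3) ^ 4) ^ (2 * s) :=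
          Nat.mul_le_mul_left _ (Nat.pow_le_pow_right hK1 (by omega))
      _ ≤ g := hg

end Pool.Agent.DC3
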