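import Pool.Agent.Lib.DC3.Nonconst
import Pool.Agent.Lib.DC3.Clean

/-!
# The window lemma
-/

set_option autoImplicit false

open Finset

namespace Pool.Agent.DC3

variable {k : Type*} [Field k]

/-- `Cv` as a double sum of indicators -/
private theorem Window_Cv (V : Finset ℕ) (μ : ℕ → k) (t : ℕ) :
    Cv V μ t = ∑ a ∈ V, ∑ b ∈ V, if a + b ≤ t then μ a * μ b else 0 := by
  unfold Cv
  refine Finset.sum_congr rfl fun a _ => ?_
  rw [Finset.sum_filter]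

private theorem Window_mov1 (V : Finset ℕ) (μ : ℕ → k) (z x : ℕ) (hz : z ∈ V) :
    (∑ a ∈ V, ∑ b ∈ V, if a = z ∧ b ≤ x then μ a * μ b else 0) = μ z * Sv V μ x := by
  rw [Finset.sum_eq_single z]
  · unfold Sv
    rw [Finset.sum_filter, Finset.mul_sum]
    refine Finset.sum_congr rfl fun b _ => ?_
    by_cases hb : b ≤ x <;> simp [hb]
  · intro a _ ha
    refine Finset.sum_eq_zero fun b _ => ?_
    rw [if_neg]
    rintro ⟨h, _⟩
    exact ha h
  · intro h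
    exact absurd hz h

private theorem Window_mov2 (V : Finset ℕ) (μ : ℕ → k) (z x : ℕ) (hz : z ∈ V) :
    (∑ a ∈ V, ∑ b ∈ V, if b = z ∧ a ≤ x then μ a * μ b else 0) = μ z * Sv V μ x := by
  rw [Finset.sum_comm, ← Window_mov1 V μ z x hz]
  refine Finset.sum_congr rfl fun a _ => Finset.sum_congr rfl fun b _ => ?_
  by_cases h : a = z ∧ b ≤ x
  · rw [if_pos h, if_pos h, mul_comm]
  · rw [if_neg h, if_neg h]

/-- the key local computation -/
private theorem Window_split (V : Finset ℕ) (μ : ℕ → k) (z x g ρ : ℕ) (hz : z ∈ V)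
    (hzg : g ≤ z) (hx : x < g)
    (hiff : ∀ a ∈ V, ∀ b ∈ V, ¬ (a = z ∧ b < g) → ¬ (b = z ∧ a < g) →
      (a + b ≤ z + x ↔ a + b < z + ρ)) :
    Cv V μ (z + x) = (∑ a ∈ V, ∑ b ∈ V, if (a + b < z + ρ ∧ ¬ (a = z ∧ b < g) ∧
      ¬ (b = z ∧ a < g)) then μ a * μ b else 0) + 2 * (μ z * Sv V μ x) := by
  rw [two_mul, ← add_assoc]
  nth_rewrite 1 [← Window_mov1 V μ z x hz]
  rw [← Window_mov2 V μ z x hz, Window_Cv, ← Finset.sum_add_distrib, ← Finset.sum_add_distrib]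
  refine Finset.sum_congr rfl fun a ha => ?_
  rw [← Finset.sum_add_distrib, ← Finset.sum_add_distrib]
  refine Finset.sum_congr rfl fun b hb => ?_
  have key := hiff a ha b hb
  by_cases h1 : a = z ∧ b < g
  · have hbz : b ≠ z := by omega
    obtain ⟨rfl, hbg⟩ := h1
    by_cases hbx : b ≤ x
    · rw [if_pos (by omega), if_neg (by simp [hbg]), if_pos ⟨rfl, hbx⟩, if_neg (by tauto)]
      simp
    · rw [if_neg (by omega), if_neg (by simp [hbg]), if_neg (by tauto), if_neg (by tauto)]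
      simp
  · by_cases h2 : b = z ∧ a < g
    · have haz : a ≠ z := by omega
      obtain ⟨rfl, hag⟩ := h2
      by_cases hax : a ≤ x
      · rw [if_pos (by omega), if_neg (by simp [hag]), if_neg (by tauto), if_pos ⟨rfl, hax⟩]
        simp
      · rw [if_neg (by omega), if_neg (by simp [hag]), if_neg (by tauto), if_neg (by tauto)]
        simp
    · have hk := key h1 h2
      have e1 : ¬ (a = z ∧ b ≤ x) := fun h => h1 ⟨h.1, lt_of_le_of_lt h.2 hx⟩
      have e2 : ¬ (b = z ∧ a ≤ x) := fun h => h2 ⟨h.1, lt_of_le_of_lt h.2 hx⟩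
      rw [if_neg e1, if_neg e2, add_zero, add_zero]
      by_cases h3 : a + b ≤ z + x
      · rw [if_pos h3, if_pos ⟨hk.1 h3, h1, h2⟩]
      · rw [if_neg h3, if_neg (fun h => h3 (hk.2 h.1))]

/-- numbers -/
private theorem Window_num1 (m ρ g w' : ℕ) (hρ1 : 1 ≤ ρ) (hw : w' ≤ ρ + 2 * m ^ 3 * ρ)
    (hg : 4 * (m + 3) ^ 4 * ρ ≤ g) : w' ≤ g ∧ 1 ≤ g := by
  have h1 : 1 + 2 * m ^ 3 ≤ 4 * (m + 3) ^ 4 := by
    have : (m + 3) ^ 4 = m ^ 4 + 12 * m ^ 3 + 54 * m ^ 2 + 108 * m + 81 := by ring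
    rw [this]
    nlinarith [Nat.zero_le (m ^ 4), Nat.zero_le (m ^ 3), Nat.zero_le (m ^ 2)]
  have h2 : (1 + 2 * m ^ 3) * ρ ≤ 4 * (m + 3) ^ 4 * ρ := Nat.mul_le_mul_right ρ h1
  have h3 : (1 + 2 * m ^ 3) * ρ = ρ + 2 * m ^ 3 * ρ := by ring
  have h4 : 1 ≤ (1 + 2 * m ^ 3) * ρ := Nat.mul_pos (by omega) hρ1
  constructor <;> omega

private theorem Window_num2 (m ρ w' : ℕ) (hρ1 : 1 ≤ ρ) (hw : w' ≤ ρ + 2 * m ^ 3 * ρ) :
    w' + (m + 2) * w' < 2 * ((m + 3) ^ 4 * ρ) := by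
  have h0 : w' + (m + 2) * w' = (m + 3) * w' := by ring
  rw [h0]
  have h1 : (m + 3) * w' ≤ (m + 3) * ((1 + 2 * m ^ 3) * ρ) := by
    apply Nat.mul_le_mul_left
    have h3 : (1 + 2 * m ^ 3) * ρ = ρ + 2 * m ^ 3 * ρ := by ring
    omega
  refine lt_of_le_of_lt h1 ?_
  have h2 : (m + 3) * (1 + 2 * m ^ 3) < 2 * (m + 3) ^ 4 := by
    have e1 : (m + 3) ^ 4 = m ^ 4 + 12 * m ^ 3 + 54 * m ^ 2 + 108 * m + 81 := by ring
    have e2 : (m + 3) * (1 + 2 * m ^ 3) = 2 * m ^ 4 + 6 * m ^ 3 + m + 3 := by ring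
    rw [e1, e2]
    nlinarith [Nat.zero_le (m ^ 4), Nat.zero_le (m ^ 3), Nat.zero_le (m ^ 2)]
  calc (m + 3) * ((1 + 2 * m ^ 3) * ρ) = ((m + 3) * (1 + 2 * m ^ 3)) * ρ := by ring
    _ < (2 * (m + 3) ^ 4) * ρ := Nat.mul_lt_mul_of_pos_right h2 hρ1
    _ = 2 * ((m + 3) ^ 4 * ρ) := by ring

/-- The combinations of the points of `V` in `[g, 5 T)` meet every window `[ρ, K ρ]`. -/
theorem window {N w m : ℕ} {D : k} (Y : Sys k N w m D) (h2 : (2 : k) ≠ 0)
    (hD : ∀ x : k, x ^ 2 ≠ D) (g T ρ : ℕ) (hρ1 : 1 ≤ ρ) (hρ : w ≤ ρ)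
    (hg : 4 * (m + 3) ^ 4 * ρ ≤ g) (hT : (m + 2) ^ 2 * g ≤ T) (hN : 5 * T ≤ N) :
    Hit {v ∈ Y.V | g ≤ v ∧ v < 5 * T} ρ (4 * (m + 3) ^ 4) := by
  classical
  by_contra hH
  obtain ⟨Y', hsub, hsep, -⟩ := clean Y ρ
  have hw' : w + 2 * m ^ 3 * ρ ≤ ρ + 2 * m ^ 3 * ρ := by omega
  obtain ⟨hwg, hg1⟩ := Window_num1 m ρ g _ hρ1 hw' hg
  have hZ := Y'.cardZ
  have hV := Y'.cardV
  have hrel := Y'.rel
  -- points with a gap of length `g` below them
  set G : Finset ℕ := {t ∈ Ico T (4 * T) | ∀ v ∈ Y'.V, v ≤ t → v + g ≤ t} with hG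
  have hbad : #{t ∈ Ico T (4 * T) | ¬ ∀ v ∈ Y'.V, v ≤ t → v + g ≤ t} ≤ m * g := by
    calc #{t ∈ Ico T (4 * T) | ¬ ∀ v ∈ Y'.V, v ≤ t → v + g ≤ t}
        ≤ #(Y'.V.biUnion fun v => Ico v (v + g)) := by
          apply Finset.card_le_card
          intro t ht
          rw [Finset.mem_filter] at ht
          have h := ht.2
          push Not at h
          obtain ⟨v, hv, hvt, hlt⟩ := h
          exact Finset.mem_biUnion.2 ⟨v, hv, Finset.mem_Ico.2 ⟨hvt, hlt⟩⟩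
      _ ≤ ∑ v ∈ Y'.V, #(Ico v (v + g)) := Finset.card_biUnion_le
      _ = #Y'.V * g := by simp
      _ ≤ m * g := Nat.mul_le_mul_right g hV
  have hT4 : 4 * g ≤ T := le_trans (Nat.mul_le_mul_right g (by nlinarith)) hT
  have hTm : m * g + g ≤ T := by
    refine le_trans ?_ hT
    have : m * g + g = (m + 1) * g := by ring
    rw [this]
    exact Nat.mul_le_mul_right g (by nlinarith)
  have hcardI : #(Ico T (4 * T)) = 3 * T := by
    rw [Nat.card_Ico]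
    omega
  have hGne : G.Nonempty := by
    rw [← Finset.card_pos]
    have h1 := Finset.card_filter_add_card_filter_not (s := Ico T (4 * T))
      (fun t => ∀ v ∈ Y'.V, v ≤ t → v + g ≤ t)
    rw [hcardI] at h1
    rw [hG]
    omega
  obtain ⟨t1, ht1G, ht1min⟩ : ∃ t1 ∈ G, ∀ t ∈ G, t1 ≤ t :=
    ⟨G.min' hGne, G.min'_mem hGne, fun t ht => G.min'_le t ht⟩
  -- the prefix sum changes above `t1`
  obtain ⟨t2, ht2G, ht2⟩ : ∃ t2 ∈ G, Sv Y'.V Y'.μ t2 ≠ Sv Y'.V Y'.μ t1 := by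
    by_contra hcon
    push Not at hcon
    have hnc := nonconst Y' hD T (by omega) (Sv Y'.V Y'.μ t1)
    have hsub2 : #{t ∈ Ico T (4 * T) | Sv Y'.V Y'.μ t ≠ Sv Y'.V Y'.μ t1} ≤ m * g := by
      refine le_trans (Finset.card_le_card ?_) hbad
      intro t ht
      rw [Finset.mem_filter] at ht ⊢
      refine ⟨ht.1, fun h => ht.2 (hcon t ?_)⟩
      rw [hG, Finset.mem_filter]
      exact ⟨ht.1, h⟩
    have h3 : (m + 2) * #{t ∈ Ico T (4 * T) | Sv Y'.V Y'.μ t ≠ Sv Y'.V Y'.μ t1} ≤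
        (m + 2) * (m * g) := Nat.mul_le_mul_left _ hsub2
    have h4 : g + (m + 2) * (m * g) < 2 * ((m + 2) ^ 2 * g) := by
      have : g + (m + 2) * (m * g) = (m + 1) ^ 2 * g := by ring
      rw [this]
      have h5 : (m + 1) ^ 2 < 2 * (m + 2) ^ 2 := by nlinarith
      calc (m + 1) ^ 2 * g < (2 * (m + 2) ^ 2) * g := Nat.mul_lt_mul_of_pos_right h5 hg1
        _ = 2 * ((m + 2) ^ 2 * g) := by ring
    omega
  rw [hG, Finset.mem_filter, Finset.mem_Ico] at ht1G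
  have ht2I := ht2G
  rw [hG, Finset.mem_filter, Finset.mem_Ico] at ht2I
  have ht12 : t1 ≤ t2 := ht1min t2 ht2G
  obtain ⟨v0, hv0, hv01, hv02⟩ := exists_jump Y'.V Y'.μ t1 t2 ht12 (Ne.symm ht2)
  have hFne : (Y'.V.filter fun v => t1 < v).Nonempty := ⟨v0, Finset.mem_filter.2 ⟨hv0, hv01⟩⟩
  obtain ⟨z, hzV, hz1, hz4, hzmin⟩ : ∃ z ∈ Y'.V, t1 < z ∧ z < 4 * T ∧
      ∀ v ∈ Y'.V, t1 < v → z ≤ v := by
    refine ⟨(Y'.V.filter fun v => t1 < v).min' hFne, ?_, ?_, ?_, ?_⟩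
    · exact (Finset.mem_filter.1 (Finset.min'_mem _ hFne)).1
    · exact (Finset.mem_filter.1 (Finset.min'_mem _ hFne)).2
    · have := Finset.min'_le (Y'.V.filter fun v => t1 < v) v0 (Finset.mem_filter.2 ⟨hv0, hv01⟩)
      omega
    · intro v hv hv1
      exact Finset.min'_le _ v (Finset.mem_filter.2 ⟨hv, hv1⟩)
  have hzU : z ∈ ({v ∈ Y.V | g ≤ v ∧ v < 5 * T} : Finset ℕ) := by
    rw [Finset.mem_filter]
    refine ⟨hsub hzV, ?_, ?_⟩ <;> omega
  have hK : 4 * (m + 3) ^ 4 * ρ = 4 * ((m + 3) ^ 4 * ρ) := by ring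
  set T1 := (m + 3) ^ 4 * ρ with hT1
  have hρT1 : ρ ≤ T1 := Nat.le_mul_of_pos_left ρ (by positivity)
  -- the sums `a + b` do not fall between `z + ρ` and `z + x`
  have hiff : ∀ x, T1 ≤ x → x < 4 * T1 → ∀ a ∈ Y'.V, ∀ b ∈ Y'.V, ¬ (a = z ∧ b < g) →
      ¬ (b = z ∧ a < g) → (a + b ≤ z + x ↔ a + b < z + ρ) := by
    have hmix : ∀ x, T1 ≤ x → x < 4 * T1 → ∀ a ∈ Y'.V, ∀ b ∈ Y'.V, a < g → g ≤ b → b ≠ z →
        (a + b ≤ z + x ↔ a + b < z + ρ) := by
      intro x hx1 hx2 a ha b hb hag hgb hbz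
      by_cases hbt : b ≤ t1
      · have := ht1G.2 b hb hbt
        constructor <;> intro _ <;> omega
      · have h1 : z ≤ b := hzmin b hb (by omega)
        have h2 : z + ρ < b := hsep z hzV b hb (by omega)
        constructor
        · intro hab
          exfalso
          apply hH
          left
          refine ⟨z, hzU, b, ?_, by omega, by omega⟩
          rw [Finset.mem_filter]
          refine ⟨hsub hb, hgb, by omega⟩
        · intro hab
          omega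
    intro x hx1 hx2 a ha b hb h1 h2
    rcases lt_or_ge a g with hag | hag
    · rcases lt_or_ge b g with hbg | hbg
      · constructor <;> intro _ <;> omega
      · exact hmix x hx1 hx2 a ha b hb hag hbg (fun h => h2 ⟨h, hag⟩)
    · rcases lt_or_ge b g with hbg | hbg
      · have := hmix x hx1 hx2 b hb a ha hbg hag (fun h => h1 ⟨h, hbg⟩)
        rw [add_comm a b]
        exact this
      · constructor
        · intro hab
          by_contra hlt
          apply hH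
          right
          refine ⟨a, ?_, b, ?_, z, hzU, by omega, by omega⟩
          · rw [Finset.mem_filter]
            exact ⟨hsub ha, hag, by omega⟩
          · rw [Finset.mem_filter]
            exact ⟨hsub hb, hbg, by omega⟩
        · intro hab
          omega
  -- the prefix sum is constant
  have hμz : Y'.μ z ≠ 0 := Y'.nz z hzV
  obtain ⟨c, hc⟩ : ∃ c : k, ∀ x, T1 ≤ x → x < 4 * T1 → z + x ∉ Y'.Z →
      D = c + 2 * (Y'.μ z * Sv Y'.V Y'.μ x) :=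
    ⟨_, fun x hx1 hx2 hxZ => (hrel (z + x) (by omega) hxZ).symm.trans
      (Window_split Y'.V Y'.μ z x g ρ hzV (by omega) (by omega) (hiff x hx1 hx2))⟩
  have hnc := nonconst Y' hD T1 (by omega) ((D - c) / (2 * Y'.μ z))
  have hexc : #{t ∈ Ico T1 (4 * T1) | Sv Y'.V Y'.μ t ≠ (D - c) / (2 * Y'.μ z)} ≤
      w + 2 * m ^ 3 * ρ := by
    refine le_trans ?_ hZ
    apply Finset.card_le_card_of_injOn (fun x => z + x)
    · intro x hx
      rw [Finset.mem_coe, Finset.mem_filter, Finset.mem_Ico] at hx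
      by_contra hxZ
      apply hx.2
      have hcx := hc x hx.1.1 hx.1.2 hxZ
      rw [eq_div_iff (mul_ne_zero h2 hμz)]
      linear_combination -hcx
    · intro x _ y _ hxy
      exact Nat.add_left_cancel hxy
  have hmul : (m + 2) * #{t ∈ Ico T1 (4 * T1) | Sv Y'.V Y'.μ t ≠ (D - c) / (2 * Y'.μ z)} ≤
      (m + 2) * (w + 2 * m ^ 3 * ρ) := Nat.mul_le_mul_left _ hexc
  have hfin := Window_num2 m ρ _ hρ1 hw'
  rw [← hT1] at hfin
  omega

end Pool.Agent.DC3
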